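import Pool.Agent.H889.SY.Open

/-! The centraliser of a section over a large extension of the constants. -/

set_option autoImplicit false
set_option linter.all false

open Polynomial FF

namespace Pool.Agent.H889.FD

open Pool.Agent.Y157.PS Pool.Agent.H889.PS
open Pool.Agent.Y31.PS (stab_triv pl pl_ord fixes_iff)
open Pool.Agent.R925.Q (SecR Lift)
open Pool.Agent.H889.SY (s_mul s_inv s_inv' com_of_chi chi_of_com stab_index exists_chi chi_mul chi_one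
  cong_unique chi_inj chi_root ne_of_ord)

/-- `H` contains the intersection of `Λ` with a subgroup of finite index -/
def Bg {G : Type} [Group G] (Λ H : Subgroup G) : Prop := ∃ U : Subgroup G, U.index ≠ 0 ∧ U ⊓ Λ ≤ H

section bg

variable {G : Type} [Group G] {Λ H H' : Subgroup G}

theorem Bg.of_index (h : H.index ≠ 0) : Bg Λ H := ⟨H, h, inf_le_left⟩

theorem Bg.top : Bg Λ (⊤ : Subgroup G) := ⟨⊤, by rw [Subgroup.index_top]; exact one_ne_zero, le_top⟩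

theorem Bg.inf (h : Bg Λ H) (h' : Bg Λ H') : Bg Λ (H ⊓ H') := by
  obtain ⟨U, hU, h1⟩ := h
  obtain ⟨U', hU', h1'⟩ := h'
  exact ⟨U ⊓ U', Subgroup.index_inf_ne_zero hU hU', fun σ hσ =>
    ⟨h1 ⟨hσ.1.1, hσ.2⟩, h1' ⟨hσ.1.2, hσ.2⟩⟩⟩

theorem Bg.core [Λ.Normal] (h : Bg Λ H) : Bg Λ H.normalCore := by
  obtain ⟨U, hU, h1⟩ := h
  refine ⟨U.normalCore, ?_, ?_⟩
  · haveI : U.FiniteIndex := ⟨hU⟩
    exact (Subgroup.finiteIndex_normalCore U).index_ne_zero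
  · rw [Subgroup.normal_le_normalCore]
    exact (inf_le_inf_right _ (Subgroup.normalCore_le U)).trans h1

theorem Bg.mono (h : Bg Λ H) (hle : H ≤ H') : Bg Λ H' := by
  obtain ⟨U, hU, h1⟩ := h
  exact ⟨U, hU, h1.trans hle⟩

theorem Bg.conj [Λ.Normal] (h : Bg Λ H) (σ : G) :
    Bg Λ (H.comap (MulAut.conj σ).toMonoidHom) := by
  refine h.core.mono fun τ hτ => ?_
  exact Subgroup.normalCore_le H ((Subgroup.normalCore_normal H).conj_mem τ hτ σ)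

end bg

section cen

variable {k κ R M : Type} [Field k] [Field κ] [Algebra k κ] [Field R] [Field M] [Algebra κ R]
  [Algebra R M] [Algebra κ M] [IsScalarTower κ R M] {Λ : Subgroup (κ ≃ₐ[k] κ)}

/-- the elements of `Gal(M/R)` which commute with the image of some subgroup of finite index -/
def Cen (R : Type) {k κ M : Type} [Field k] [Field κ] [Algebra k κ] [Field R] [Field M]
    [Algebra R M] (s : (κ ≃ₐ[k] κ) →* RingAut M) (Λ : Subgroup (κ ≃ₐ[k] κ)) : Subgroup (M ≃ₐ[R] M) where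
  carrier := {γ | ∃ U : Subgroup (κ ≃ₐ[k] κ), Bg Λ U ∧ ∀ σ ∈ U, ∀ z, γ (s σ z) = s σ (γ z)}
  one_mem' := ⟨⊤, Bg.top, fun σ _ z => rfl⟩
  mul_mem' := by
    rintro γ γ' ⟨U, hU, h⟩ ⟨U', hU', h'⟩
    refine ⟨U ⊓ U', hU.inf hU', fun σ hσ z => ?_⟩
    change γ (γ' (s σ z)) = s σ (γ (γ' z))
    rw [h' σ hσ.2, h σ hσ.1]
  inv_mem' := by
    rintro γ ⟨U, hU, h⟩
    refine ⟨U, hU, fun σ hσ z => ?_⟩
    apply γ.injective
    have h1 : ∀ w, γ (γ⁻¹ w) = w := fun w => γ.apply_symm_apply w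
    rw [h σ hσ, h1, h1]

theorem mem_Cen {s : (κ ≃ₐ[k] κ) →* RingAut M} {γ : M ≃ₐ[R] M} : γ ∈ Cen R s Λ ↔
    ∃ U : Subgroup (κ ≃ₐ[k] κ), Bg Λ U ∧ ∀ σ ∈ U, ∀ z, γ (s σ z) = s σ (γ z) := Iff.rfl

/-- the image of the section normalises the centraliser -/
theorem cen_conj [Λ.Normal] {x : R} (hx : RatF κ x) {s : (κ ≃ₐ[k] κ) →* RingAut M} (hs : SecR k κ R M x s)
    (σ : κ ≃ₐ[k] κ) {γ : M ≃ₐ[R] M} (hγ : γ ∈ Cen R s Λ) :
    ∃ η ∈ Cen R s Λ, ∀ z, s σ (η z) = γ (s σ z) := by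
  obtain ⟨U, hU, h⟩ := hγ
  obtain ⟨η, hη⟩ := conjR hx (s σ) (σ : κ ≃+* κ) (hs.const σ) (hs.fixx σ) γ
  have hη' : ∀ z, s σ (η z) = γ (s σ z) := by
    intro z
    rw [hη, RingEquiv.apply_symm_apply]
  refine ⟨η, ⟨U.normalCore, ?_, ?_⟩, hη'⟩
  · exact hU.core
  · intro τ hτ z
    have h2 : σ * τ * σ⁻¹ ∈ U :=
      Subgroup.normalCore_le U ((Subgroup.normalCore_normal U).conj_mem τ hτ σ)
    apply (s σ).injective
    rw [hη', ← s_mul]
    have h3 : σ * τ = (σ * τ * σ⁻¹) * σ := by group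
    rw [h3, s_mul, h _ h2, ← hη', ← s_mul, ← s_mul, ← h3]

end cen

/-- every large subgroup contains an element which is rigid -/
def RigL (k κ : Type) {R M : Type} [Field k] [Field κ] [Field R] [Field M] [Algebra k κ]
    [Algebra κ R] [Algebra R M] [Algebra κ M] (x : R) (N₀ : IntermediateField R M)
    (Λ : Subgroup (κ ≃ₐ[k] κ)) : Prop :=
  ∀ U : Subgroup (κ ≃ₐ[k] κ), Bg Λ U → ∃ φ₀ ∈ U, ∀ φ : M ≃+* M,
    Lift κ M (algebraMap R M x) φ (φ₀ : κ ≃+* κ) → ∀ δ : M ≃ₐ[R] M, (∀ z, δ (φ z) = φ (δ z)) →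
      (∀ z ∈ N₀, δ z = z) → δ = 1

section main

variable {k κ R M : Type} [Field k] [CharZero k]
    [Field κ] [Algebra k κ] [IsAlgClosure k κ]
    [Field R] [Field M] [Algebra κ R] [Algebra R M] [Algebra κ M] [IsScalarTower κ R M]
    {ℓ : ℕ} [Fact ℓ.Prime] {x : R} {B : Finset κ} {ε : κ → ℕ} {ι : ℕ}
    {N₀ : IntermediateField R M} {Λ : Subgroup (κ ≃ₐ[k] κ)}

/-- elements of the centraliser are determined by their action on `N₀` -/
theorem cen_triv (hR : RigL k κ x N₀ Λ) {s : (κ ≃ₐ[k] κ) →* RingAut M} (hs : SecR k κ R M x s)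
    {γ : M ≃ₐ[R] M} (hγ : γ ∈ Cen R s Λ) (h : ∀ z ∈ N₀, γ z = z) : γ = 1 := by
  obtain ⟨U, hU, hc⟩ := hγ
  obtain ⟨φ₀, hφ, h1⟩ := hR U hU
  exact h1 (s φ₀) ⟨fun c => hs.const _ c, hs.fixx _⟩ γ (hc φ₀ hφ) h

/-- the centraliser is a finite `ℓ`-group -/
theorem cen_fin (hR : RigL k κ x N₀ Λ) (hC : GCov ℓ κ R M x B ε ι N₀)
    {s : (κ ≃ₐ[k] κ) →* RingAut M} (hs : SecR k κ R M x s) :
    Finite (Cen R s Λ) ∧ IsPGroup ℓ (Cen R s Λ) := by
  haveI := hC.gal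
  haveI := hC.lev.fin
  haveI := hC.lev.gal
  haveI : Normal R N₀ := hC.lev.gal.to_normal
  obtain ⟨m, hm⟩ := hC.lev.card
  constructor
  · have hinj : Function.Injective (fun γ : Cen R s Λ => AlgEquiv.restrictNormalHom N₀ γ.1) := by
      intro γ γ' h
      have h1 : AlgEquiv.restrictNormalHom N₀ (γ.1⁻¹ * γ'.1) = 1 := by
        rw [map_mul, map_inv]
        exact inv_mul_eq_one.2 h
      have h2 : γ.1⁻¹ * γ'.1 = 1 := by
        refine cen_triv hR hs (mul_mem (inv_mem γ.2) γ'.2) fun z hz => ?_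
        have h3 := AlgEquiv.restrictNormal_commutes (γ.1⁻¹ * γ'.1) N₀ ⟨z, hz⟩
        have h4 : (γ.1⁻¹ * γ'.1).restrictNormal N₀ = 1 := h1
        rw [h4] at h3
        exact h3.symm
      exact Subtype.ext (inv_mul_eq_one.1 h2)
    exact Finite.of_injective _ hinj
  · rintro ⟨γ, hγ⟩
    refine ⟨m, Subtype.ext ?_⟩
    change γ ^ (ℓ ^ m) = 1
    exact cen_triv hR hs (pow_mem hγ _) fun z hz => lev_pow hC.lev hm γ z hz

/-- an element of the stabiliser of a place commutes with an open subgroup of the image of a section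
which fixes this place -/
theorem cen_of_fixes' [IsAlgClosed κ] [CharZero κ] (hx : RatF κ x) [Algebra.IsAlgebraic R M]
    [Normal R M] (hN : Lev ℓ N₀) {s : (κ ≃ₐ[k] κ) →* RingAut M} (hs : SecR k κ R M x s)
    (U : Subgroup (κ ≃ₐ[k] κ)) (hU : Bg Λ U) {W : Place κ M} {ρ : M} (hρ : ρ ∈ N₀)
    (hρ1 : W.ord ρ = 1) (hfix : ∀ σ ∈ U, Fixes W (s σ)) {γ : M ≃ₐ[R] M}
    (hγ : Fixes W γ) : γ ∈ Cen R s Λ := by
  obtain ⟨m, hm⟩ := hN.card
  obtain ⟨ζ, hζ0, hζ⟩ := exists_chi hx hγ (ne_of_ord hρ1)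
  have hζ1 : ζ ^ (ℓ ^ m) = 1 := chi_root hx hN hm hγ hρ (ne_of_ord hρ1) hζ
  exact ⟨U ⊓ MulAction.stabilizer (κ ≃ₐ[k] κ) ζ, hU.inf (Bg.of_index (stab_index hζ1)),
    fun σ hσ z => com_of_chi hx hN hs hρ hρ1 (hfix σ hσ.1) hγ hζ hσ.2 z⟩

theorem cen_of_fixes (hC : GCov ℓ κ R M x B ε ι N₀)
    {s : (κ ≃ₐ[k] κ) →* RingAut M} (hs : SecR k κ R M x s) (U : Subgroup (κ ≃ₐ[k] κ))
    (hU : Bg Λ U) (W : Place κ M) (hfix : ∀ σ ∈ U, Fixes W (s σ)) {γ : M ≃ₐ[R] M}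
    (hγ : Fixes W γ) : γ ∈ Cen R s Λ := by
  haveI : IsAlgClosed κ := IsAlgClosure.isAlgClosed k
  haveI : CharZero κ := charZero_of_injective_algebraMap (algebraMap k κ).injective
  haveI := hC.gal
  obtain ⟨-, ρ, hρ, hρ1⟩ := hC.loc' W
  exact cen_of_fixes' hC.rat hC.lev hs U hU hρ hρ1 hfix hγ

/-- **sections with a nontrivial centraliser** -/
theorem afs [Λ.Normal] (hR : RigL k κ x N₀ Λ) (hC : GCov ℓ κ R M x B ε ι N₀)
    {s : (κ ≃ₐ[k] κ) →* RingAut M} (hs : SecR k κ R M x s) (h1 : Cen R s Λ ≠ ⊥) :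
    ∃ W : Place κ M, IsRam ε ι x W ∧ (∀ σ, Fixes W (s σ)) ∧
      (∀ γ : M ≃ₐ[R] M, γ ∈ Cen R s Λ ↔ Fixes W γ) ∧
      ∀ γ ∈ Cen R s Λ, γ ≠ 1 → ∀ W' : Place κ M, Fixes W' γ → W' = W := by
  classical
  haveI : IsAlgClosed κ := IsAlgClosure.isAlgClosed k
  haveI : CharZero κ := charZero_of_injective_algebraMap (algebraMap k κ).injective
  obtain ⟨hfin, hpg⟩ := cen_fin hR hC hs
  haveI : Nontrivial (Cen R s Λ) := (Subgroup.nontrivial_iff_ne_bot _).2 h1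
  haveI : Nontrivial (Subgroup.center (Cen R s Λ)) := hpg.center_nontrivial
  obtain ⟨⟨g, hg⟩, hg1⟩ := exists_ne (1 : Subgroup.center (Cen R s Λ))
  obtain ⟨m, hm⟩ := hpg g
  obtain ⟨n, hn1, hn2⟩ := exists_order m g hm (fun h => hg1 (Subtype.ext h))
  obtain ⟨c, hc⟩ : ∃ c, c = g ^ (ℓ ^ n) := ⟨_, rfl⟩
  rw [← hc] at hn1 hn2
  have hcen : ∀ γ ∈ Cen R s Λ, c.1 * γ = γ * c.1 := by
    intro γ hγ
    have h2 := Subgroup.mem_center_iff.1 (pow_mem hg (ℓ ^ n)) ⟨γ, hγ⟩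
    rw [← hc] at h2
    exact (congrArg Subtype.val h2).symm
  have hcℓ : c.1 ^ ℓ = 1 := congrArg Subtype.val hn1
  have hc1 : c.1 ≠ 1 := fun h => hn2 (Subtype.ext h)
  obtain ⟨W, hW⟩ := exf hC c.1 hcℓ hc1
  -- all elements of the centraliser fix `W`
  have hZ : ∀ γ ∈ Cen R s Λ, Fixes W γ := by
    intro γ hγ
    have h2 : Fixes (pl W γ) c.1 := by
      intro z
      rw [pl_ord, pl_ord]
      have h3 : γ (c.1 z) = c.1 (γ z) := by
        have h4 := congrArg (fun g : M ≃ₐ[R] M => g z) (hcen γ hγ)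
        exact h4.symm
      rw [h3, hW]
    exact (fixes_iff W γ).2 (unq hC c.1 hcℓ hc1 (pl W γ) W h2 hW)
  -- the image of the section fixes `W`
  have hfix : ∀ σ : κ ≃ₐ[k] κ, Fixes W (s σ) := by
    intro σ
    obtain ⟨η, hηC, hη⟩ := cen_conj hC.rat hs σ c.2
    have hηn : ∀ n : ℕ, ∀ z, s σ ((η ^ n) z) = (c.1 ^ n) (s σ z) := by
      intro n
      induction n with
      | zero => intro z; rfl
      | succ n ih =>
        intro z
        rw [pow_succ, pow_succ]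
        change s σ ((η ^ n) (η z)) = (c.1 ^ n) (c.1 (s σ z))
        rw [ih, hη]
    have hηℓ : η ^ ℓ = 1 := by
      ext z
      apply (s σ).injective
      rw [hηn, hcℓ]
      rfl
    have hη1 : η ≠ 1 := by
      intro h
      apply hc1
      ext z
      have h4 := hη (s σ⁻¹ z)
      rw [h, s_inv] at h4
      change s σ (s σ⁻¹ z) = _ at h4
      rw [s_inv] at h4
      exact h4.symm
    let Wσ := Place.comapEquiv W (s σ) (σ : κ ≃+* κ) (hs.const σ)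
    have h5 : Wσ = W := by
      refine unq hC η hηℓ hη1 Wσ W ?_ (hZ η hηC)
      intro z
      change W.ord (s σ (η z)) = W.ord (s σ z)
      rw [hη, hW]
    intro z
    change Wσ.ord z = W.ord z
    rw [h5]
  have hram : IsRam ε ι x W := by
    obtain ⟨h1, -⟩ := above_M hC hc1 hW
    have hpos : ∀ n : ℕ, (0 : ℤ) < (ℓ : ℤ) ^ n := fun n => by
      have := (Fact.out : ℓ.Prime).pos
      positivity
    rcases h1 with ⟨e, -, he, h1⟩ | ⟨h1, h2⟩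
    · exact Or.inl ⟨e, h1, by rw [he]; exact hpos _⟩
    · refine Or.inr ⟨h2, ?_⟩
      rw [h1]
      have := hpos ι
      omega
  refine ⟨W, hram, hfix, fun γ => ⟨hZ γ, fun hγ => ?_⟩, ?_⟩
  · exact cen_of_fixes hC hs ⊤ Bg.top W
      (fun σ _ => hfix σ) hγ
  · intro γ hγ hγ1 W' hW'
    obtain ⟨m', hm'⟩ := hpg ⟨γ, hγ⟩
    obtain ⟨n', h2, h3⟩ := exists_order m' γ (congrArg Subtype.val hm') hγ1
    exact unq hC (γ ^ (ℓ ^ n')) h2 h3 W' W (Fixes.pow hW' _) (Fixes.pow (hZ γ hγ) _)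

/-- sections at a ramified place have a nontrivial centraliser -/
theorem cusp (hC : GCov ℓ κ R M x B ε ι N₀)
    {s : (κ ≃ₐ[k] κ) →* RingAut M} (hs : SecR k κ R M x s) (U : Subgroup (κ ≃ₐ[k] κ))
    (hU : Bg Λ U) (W : Place κ M) (hram : IsRam ε ι x W) (hfix : ∀ σ ∈ U, Fixes W (s σ)) :
    ∃ γ ∈ Cen R s Λ, γ ≠ 1 ∧ Fixes W γ := by
  haveI : IsAlgClosed κ := IsAlgClosure.isAlgClosed k
  haveI : CharZero κ := charZero_of_injective_algebraMap (algebraMap k κ).injective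
  obtain ⟨c, -, hc1, hc⟩ := ram_stab hC hram
  exact ⟨c, cen_of_fixes hC hs U hU W hfix hc, hc1, hc⟩

end main

end Pool.Agent.H889.FD
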