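import Pool.Agent.H889.FD.GeoP

/-!
# Largest extensions of sections over open subgroups: open curves
-/

set_option autoImplicit false
set_option linter.all false

open Polynomial FF

namespace Pool.Agent.H889.FD

open Pool.Agent.Y157.PS Pool.Agent.Y948.PS Pool.Agent.H889.PS Pool.Agent.H889.LM
open Pool.Agent.R925.Q (SecR PSec Triv Nm Hmax exists_max nm_top nm_of_agree nm_uniq nm_self)

section main

variable {k F Ω : Type} [Field k] [CharZero k]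
    [Field F] [Field Ω] [Algebra k F] [Algebra F Ω] [Algebra k Ω] [IsScalarTower k F Ω]
    [IsAlgClosed Ω] [Algebra.IsAlgebraic F Ω]

/-- **largest extensions of partial sections** -/
theorem descU {ℓ : ℕ} [Fact ℓ.Prime] (f : k[X]) (hf0 : f ≠ 0)
    (x : F) (hx : Transcendental k x)
    (U : Set (ValuationSubring F)) (hUk : ∀ O ∈ U, ∀ c : k, algebraMap k F c ∈ O)
    (hUsat : ∀ O ∈ U, ∀ O' : ValuationSubring F, (∀ c : k, algebraMap k F c ∈ O') →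
      (∀ r ∈ IntermediateField.adjoin k {x}, r ∈ O' ↔ r ∈ O) → O' ∈ U)
    (hUf : ∀ O : ValuationSubring F, O ≠ ⊤ → (∀ c : k, algebraMap k F c ∈ O) → x ∈ O →
      aeval x f ∉ O.nonunits → O ∈ U)
    (L : IntermediateField (ratL (Ω := Ω) k x) Ω) (hL : Lev ℓ L)
    (hFL : ∀ z : F, algebraMap F Ω z ∈ L)
    (hLu : ∀ W : ValuationSubring Ω, (∀ c : k, algebraMap k Ω c ∈ W) →
      W.comap (algebraMap F Ω) ∈ U → ∀ z ∈ L, z ≠ 0 →
      ∃ t ∈ geomF k F Ω, t ≠ 0 ∧ IsU W (z / t))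
    (hLf : ∀ W : ValuationSubring Ω, (∀ c : k, algebraMap k Ω c ∈ W) → algebraMap F Ω x ∈ W →
      algebraMap F Ω (aeval x f) ∉ W.nonunits → ∀ z ∈ L, z ≠ 0 →
        ∃ t ∈ ratL (Ω := Ω) k x, t ≠ 0 ∧ IsU W (z / t))
    (hbig : ∃ z ∈ maxPro ℓ k L Ω, z ∉ L)
    (H : Subgroup (algebraicClosure k Ω ≃ₐ[k] algebraicClosure k Ω))
    (hHo : IsOpen (H : Set (algebraicClosure k Ω ≃ₐ[k] algebraicClosure k Ω)))
    (s : H →* RingAut (proU ℓ k F Ω U))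
    (hps : PSec (cstU ℓ k F Ω U) (algebraMap F (proU ℓ k F Ω U) x) H s)
    (hcont : ∀ z, ∃ V : Subgroup (algebraicClosure k Ω ≃ₐ[k] algebraicClosure k Ω),
      IsOpen (V : Set (algebraicClosure k Ω ≃ₐ[k] algebraicClosure k Ω)) ∧
      ∀ σ : H, (σ : algebraicClosure k Ω ≃ₐ[k] algebraicClosure k Ω) ∈ V → s σ z = z)
    (hRR : ∀ B : Finset (algebraicClosure k Ω), (∀ θ, θ ∈ B ↔ aeval θ f = 0) →
      RRL ℓ k (algebraicClosure k Ω) B ⊤)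
    (hnb : ¬ ∃ W : ValuationSubring (proU ℓ k F Ω U), RaU ℓ k U x W ∧
        W.comap (algebraMap F (proU ℓ k F Ω U)) ∈ U ∧ (∀ σ z, s σ z ∈ W ↔ z ∈ W)) :
    ∃ (H₀ : Subgroup (algebraicClosure k Ω ≃ₐ[k] algebraicClosure k Ω))
      (s₀ : H₀ →* RingAut (proU ℓ k F Ω U)),
      IsOpen (H₀ : Set (algebraicClosure k Ω ≃ₐ[k] algebraicClosure k Ω)) ∧
      PSec (cstU ℓ k F Ω U) (algebraMap F (proU ℓ k F Ω U) x) H₀ s₀ ∧
      (∀ z, ∃ V : Subgroup (algebraicClosure k Ω ≃ₐ[k] algebraicClosure k Ω),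
        IsOpen (V : Set (algebraicClosure k Ω ≃ₐ[k] algebraicClosure k Ω)) ∧
        ∀ σ : H₀, (σ : algebraicClosure k Ω ≃ₐ[k] algebraicClosure k Ω) ∈ V → s₀ σ z = z) ∧
      (∀ σ (h : σ ∈ H), ∃ h0 : σ ∈ H₀, s₀ ⟨σ, h0⟩ = s ⟨σ, h⟩) ∧
      ∀ Λ : Subgroup (algebraicClosure k Ω ≃ₐ[k] algebraicClosure k Ω), Λ.Normal →
        (∀ B : Finset (algebraicClosure k Ω), (∀ θ, θ ∈ B ↔ aeval θ f = 0) →
          RRL ℓ k (algebraicClosure k Ω) B Λ) →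
      (∀ (H' : Subgroup (algebraicClosure k Ω ≃ₐ[k] algebraicClosure k Ω))
        (s' : H' →* RingAut (proU ℓ k F Ω U)),
        PSec (cstU ℓ k F Ω U) (algebraMap F (proU ℓ k F Ω U) x) H' s' →
        (∃ V : Subgroup (algebraicClosure k Ω ≃ₐ[k] algebraicClosure k Ω), V.index ≠ 0 ∧
          ∀ τ ∈ V, τ ∈ Λ → ∃ (h1 : τ ∈ H) (h2 : τ ∈ H'), s ⟨τ, h1⟩ = s' ⟨τ, h2⟩) →
        ∀ σ (h : σ ∈ H'), ∃ h0 : σ ∈ H₀, s₀ ⟨σ, h0⟩ = s' ⟨σ, h⟩) ∧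
      ∀ σ γ, Nm (cstU ℓ k F Ω U) (algebraMap F (proU ℓ k F Ω U) x) s Λ σ γ ↔
        ∃ h0 : σ ∈ H₀, s₀ ⟨σ, h0⟩ = γ := by
  classical
  have hac : IsAlgClosure k (algebraicClosure k Ω) := inferInstance
  have hkb : IsAlgClosed (algebraicClosure k Ω) := hac.1
  have : Normal k (algebraicClosure k Ω) := IsAlgClosure.normal k _
  have hGal : IsGalois k (algebraicClosure k Ω) := ⟨⟩
  have hch : CharZero (algebraicClosure k Ω) :=
    charZero_of_injective_algebraMap (algebraMap k (algebraicClosure k Ω)).injective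
  have hHi : H.index ≠ 0 := by
    haveI := Subgroup.quotient_finite_of_isOpen H hHo
    exact (Subgroup.finiteIndex_of_finite_quotient (H := H)).index_ne_zero
  have hTn : (⊤ : Subgroup (algebraicClosure k Ω ≃ₐ[k] algebraicClosure k Ω)).Normal :=
    inferInstance
  have triv : ∀ Λ : Subgroup (algebraicClosure k Ω ≃ₐ[k] algebraicClosure k Ω), Λ.Normal →
        (∀ B : Finset (algebraicClosure k Ω), (∀ θ, θ ∈ B ↔ aeval θ f = 0) →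
          RRL ℓ k (algebraicClosure k Ω) B Λ) →
        Triv (cstU ℓ k F Ω U) (algebraMap F (proU ℓ k F Ω U) x) H s Λ := by
    intro Λ hΛn hRRΛ V hV γ hγc hγx hγ
    by_contra hne
    obtain ⟨W, h1, h2, h3, -⟩ := (geoPU f hf0 x hx U hUk hUsat hUf L hL hFL hLu hLf hbig H hHo s hps
      hcont Λ hΛn hRRΛ).1 V hV γ hγc hγx hγ hne
    exact hnb ⟨W, h1, h2, h3⟩
  have hT := triv ⊤ hTn hRR
  obtain ⟨s₀, h1, h2, h4⟩ := exists_max hTn hps hHi hT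
  refine ⟨Hmax (cstU ℓ k F Ω U) (algebraMap F (proU ℓ k F Ω U) x) H hHi s ⊤ hTn, s₀, ?_, h2,
    ?_, h4, ?_⟩
  · exact Subgroup.isOpen_mono (fun σ h => (h4 σ h).1) hHo
  · intro z
    obtain ⟨V, hV, hVz⟩ := hcont z
    refine ⟨V ⊓ H, hV.inter hHo, fun σ hσ => ?_⟩
    obtain ⟨h0, h5⟩ := h4 σ hσ.2
    have h6 : (⟨(σ : algebraicClosure k Ω ≃ₐ[k] algebraicClosure k Ω), h0⟩ :
        Hmax (cstU ℓ k F Ω U) (algebraMap F (proU ℓ k F Ω U) x) H hHi s ⊤ hTn) = σ := rfl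
    rw [h6] at h5
    rw [h5]
    exact hVz ⟨σ, hσ.2⟩ hσ.1
  · intro Λ hΛn hRRΛ
    have hTS := triv Λ hΛn hRRΛ
    refine ⟨?_, fun σ γ => ⟨?_, ?_⟩⟩
    · rintro H' s' hs' ⟨V, hV, hag⟩ σ h
      have h5 := nm_top hΛn hps hHi hTS (nm_of_agree hΛn hs' V hV hag ⟨σ, h⟩)
      exact ⟨⟨_, h5⟩, nm_uniq hTn hT (h1 _) h5⟩
    · intro h5
      have h6 := nm_top hΛn hps hHi hTS h5
      exact ⟨⟨_, h6⟩, nm_uniq hTn hT (h1 _) h6⟩
    · rintro ⟨h0, rfl⟩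
      obtain ⟨h5, h6, V, hV, h7⟩ := h1 ⟨σ, h0⟩
      exact ⟨h5, h6, V, hV, fun τ hτ _ => h7 τ hτ trivial⟩

end main

end Pool.Agent.H889.FD
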