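import Pool.Agent.H889.FD.Inst
import Pool.Graph.R_seed8.R925.Q.Inst

/-! Rigidity over fields with a discrete valuation with good branch points. -/

set_option autoImplicit false
set_option linter.all false

open Polynomial FF

namespace Pool.Agent.H889.FD

open Pool.Agent.Y157.PS Pool.Agent.Y948.PS Pool.Agent.H889.PS Pool.Agent.H889.LM
open Pool.Agent.H889.SY (RR)

theorem rr_dvr {A k κ : Type} [CommRing A] [IsDomain A] [IsDiscreteValuationRing A]
    [Finite (IsLocalRing.ResidueField A)] [Field k] [CharZero k] [Algebra A k] [IsFractionRing A k]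
    [Field κ] [Algebra k κ] [IsAlgClosure k κ]
    {ℓ : ℕ} [Fact ℓ.Prime] (hℓ : IsUnit (ℓ : A)) (f : A[X]) (hlc : IsUnit f.leadingCoeff)
    (hs : (f.map (IsLocalRing.residue A)).Separable) (B : Finset κ)
    (hB : ∀ θ, θ ∈ B ↔ aeval θ (f.map (algebraMap A k)) = 0) : RR ℓ k κ B := by
  haveI : IsAlgClosed κ := IsAlgClosure.isAlgClosed k
  obtain ⟨V, hVA, hVm⟩ := exists_V A k κ
  letI : Algebra A κ := ((algebraMap k κ).comp (algebraMap A k)).toAlgebra
  haveI hst : IsScalarTower A k κ := IsScalarTower.of_algebraMap_eq (fun _ => rfl)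
  have hVa : ∀ a : A, algebraMap A κ a ∈ V := hVA
  have hVm' : ∀ a ∈ IsLocalRing.maximalIdeal A, algebraMap A κ a ∈ V.nonunits := hVm
  refine Pool.Agent.H889.SY.rr_good (k := k) hℓ V hVa hVm' B ?_
  obtain ⟨hnd, hdist⟩ := Pool.Agent.W623.SecC.roots_distinct V hVa hVm' f hlc hs
  set P := f.map (algebraMap A κ) with hP
  have hlc0 : algebraMap A κ f.leadingCoeff ≠ 0 := (hlc.map (algebraMap A κ)).ne_zero
  have hP0 : P ≠ 0 := by
    intro h
    apply hlc0
    rw [← leadingCoeff_map_of_leadingCoeff_ne_zero _ hlc0, ← hP, h, leadingCoeff_zero]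
  have hmem : ∀ θ, θ ∈ B ↔ aeval θ f = 0 := by
    intro θ
    rw [hB, aeval_map_algebraMap]
  have hmem' : ∀ θ, θ ∈ B → θ ∈ P.roots := by
    intro θ hθ
    rw [mem_roots hP0, IsRoot.def, hP, eval_map]
    exact (hmem θ).1 hθ
  constructor
  · intro e he
    exact Pool.Agent.W308.SecC.root_mem V hVa f hlc _ ((hmem _).1 he)
  · intro e he e' he' hne
    exact hdist e (hmem' e he) e' (hmem' e' he') hne

end Pool.Agent.H889.FD
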