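import Pool.Agent.H889.FD.Norm
import Pool.Agent.H889.SY.GeoC

/-!
# Sections over open subgroups: open curves, concrete form
-/

set_option autoImplicit false
set_option linter.all false

open Polynomial FF

namespace Pool.Agent.H889.FD

open Pool.Agent.Y157.PS Pool.Agent.Y948.PS Pool.Agent.H889.PS Pool.Agent.H889.LM
open Pool.Agent.R925.Q (SecR PSec exists_gal)
open Pool.Agent.H889.SY (RV OV)

section main

variable {k F Ω : Type} [Field k] [CharZero k]
    [Field F] [Field Ω] [Algebra k F] [Algebra F Ω] [Algebra k Ω] [IsScalarTower k F Ω]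
    [IsAlgClosed Ω] [Algebra.IsAlgebraic F Ω]

/-- the constants in `M_U` -/
noncomputable def cstU (ℓ : ℕ) (k F Ω : Type) [Field k] [Field F] [Field Ω] [Algebra k F]
    [Algebra F Ω] [Algebra k Ω] [IsScalarTower k F Ω] (U : Set (ValuationSubring F)) :
    algebraicClosure k Ω → proU ℓ k F Ω U :=
  fun c => ⟨(c : Ω), (maxU ℓ k (geomF k F Ω) Ω (Ab Ω U)).algebraMap_mem
    ⟨(c : Ω), IntermediateField.subset_adjoin _ _ c.2⟩⟩

/-- a valuation ring of `M_U` over `k`, ramified over `k̄(x)` -/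
structure RaU (ℓ : ℕ) (k : Type) {F Ω : Type} [Field k] [Field F] [Field Ω] [Algebra k F]
    [Algebra F Ω] [Algebra k Ω] (U : Set (ValuationSubring F)) (x : F)
    (W : ValuationSubring (proU ℓ k F Ω U)) : Prop where
  con : ∀ c : k, algebraMap F (proU ℓ k F Ω U) (algebraMap k F c) ∈ W
  ram : RamU ℓ k U x (proU ℓ k F Ω U) W

theorem geoPU {ℓ : ℕ} [Fact ℓ.Prime] (f : k[X]) (hf0 : f ≠ 0)
    (x : F) (hx : Transcendental k x)
    (U : Set (ValuationSubring F)) (hUk : ∀ O ∈ U, ∀ c : k, algebraMap k F c ∈ O)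
    (hUsat : ∀ O ∈ U, ∀ O' : ValuationSubring F, (∀ c : k, algebraMap k F c ∈ O') →
      (∀ r ∈ IntermediateField.adjoin k {x}, r ∈ O' ↔ r ∈ O) → O' ∈ U)
    (hUf : ∀ O : ValuationSubring F, O ≠ ⊤ → (∀ c : k, algebraMap k F c ∈ O) → x ∈ O →
      aeval x f ∉ O.nonunits → O ∈ U)
    (L : IntermediateField (ratL (Ω := Ω) k x) Ω) (hL : Lev ℓ L)
    (hFL : ∀ z : F, algebraMap F Ω z ∈ L)
    (hLu : ∀ W : ValuationSubring Ω, (∀ c : k, algebraMap k Ω c ∈ W) →
      W.comap (algebraMap F Ω) ∈ U → ∀ z ∈ L, z ≠ 0 →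
      ∃ t ∈ geomF k F Ω, t ≠ 0 ∧ IsU W (z / t))
    (hLf : ∀ W : ValuationSubring Ω, (∀ c : k, algebraMap k Ω c ∈ W) → algebraMap F Ω x ∈ W →
      algebraMap F Ω (aeval x f) ∉ W.nonunits → ∀ z ∈ L, z ≠ 0 →
        ∃ t ∈ ratL (Ω := Ω) k x, t ≠ 0 ∧ IsU W (z / t))
    (hbig : ∃ z ∈ maxPro ℓ k L Ω, z ∉ L)
    (H : Subgroup (algebraicClosure k Ω ≃ₐ[k] algebraicClosure k Ω))
    (hHo : IsOpen (H : Set (algebraicClosure k Ω ≃ₐ[k] algebraicClosure k Ω)))
    (s : H →* RingAut (proU ℓ k F Ω U))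
    (hps : PSec (cstU ℓ k F Ω U) (algebraMap F (proU ℓ k F Ω U) x) H s)
    (hcont : ∀ z, ∃ V : Subgroup (algebraicClosure k Ω ≃ₐ[k] algebraicClosure k Ω),
      IsOpen (V : Set (algebraicClosure k Ω ≃ₐ[k] algebraicClosure k Ω)) ∧
      ∀ σ : H, (σ : algebraicClosure k Ω ≃ₐ[k] algebraicClosure k Ω) ∈ V → s σ z = z)
    (Λ : Subgroup (algebraicClosure k Ω ≃ₐ[k] algebraicClosure k Ω)) (hΛn : Λ.Normal)
    (hRR : ∀ B : Finset (algebraicClosure k Ω), (∀ θ, θ ∈ B ↔ aeval θ f = 0) →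
      RRL ℓ k (algebraicClosure k Ω) B Λ) :
    (∀ V : Subgroup (algebraicClosure k Ω ≃ₐ[k] algebraicClosure k Ω), V.index ≠ 0 →
      ∀ γ : RingAut (proU ℓ k F Ω U), (∀ c, γ (cstU ℓ k F Ω U c) = cstU ℓ k F Ω U c) →
      γ (algebraMap F (proU ℓ k F Ω U) x) = algebraMap F (proU ℓ k F Ω U) x →
      (∀ σ : H, (σ : algebraicClosure k Ω ≃ₐ[k] algebraicClosure k Ω) ∈ V →
        (σ : algebraicClosure k Ω ≃ₐ[k] algebraicClosure k Ω) ∈ Λ →
        ∀ z, γ (s σ z) = s σ (γ z)) → γ ≠ 1 →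
      ∃ W : ValuationSubring (proU ℓ k F Ω U), RaU ℓ k U x W ∧
        W.comap (algebraMap F (proU ℓ k F Ω U)) ∈ U ∧ (∀ σ z, s σ z ∈ W ↔ z ∈ W) ∧
        ∀ z, γ z ∈ W ↔ z ∈ W) ∧
    (∀ V : Subgroup (algebraicClosure k Ω ≃ₐ[k] algebraicClosure k Ω), V.index ≠ 0 →
      ∀ W : ValuationSubring (proU ℓ k F Ω U), RaU ℓ k U x W →
      (∀ σ : H, (σ : algebraicClosure k Ω ≃ₐ[k] algebraicClosure k Ω) ∈ V →
        (σ : algebraicClosure k Ω ≃ₐ[k] algebraicClosure k Ω) ∈ Λ →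
        ∀ z, s σ z ∈ W ↔ z ∈ W) →
      (∀ σ z, s σ z ∈ W ↔ z ∈ W) ∧
      ∀ V' : Subgroup (algebraicClosure k Ω ≃ₐ[k] algebraicClosure k Ω), V'.index ≠ 0 →
        ∀ W' : ValuationSubring (proU ℓ k F Ω U), RaU ℓ k U x W' →
        (∀ σ : H, (σ : algebraicClosure k Ω ≃ₐ[k] algebraicClosure k Ω) ∈ V' →
          (σ : algebraicClosure k Ω ≃ₐ[k] algebraicClosure k Ω) ∈ Λ →
          ∀ z, s σ z ∈ W' ↔ z ∈ W') → W' = W) ∧
    (∀ W : ValuationSubring (proU ℓ k F Ω U), RaU ℓ k U x W →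
      W.comap (algebraMap F (proU ℓ k F Ω U)) ∈ U → (∀ σ z, s σ z ∈ W ↔ z ∈ W) →
      (∃ γ : RingAut (proU ℓ k F Ω U), (∀ c, γ (cstU ℓ k F Ω U c) = cstU ℓ k F Ω U c) ∧
        γ (algebraMap F (proU ℓ k F Ω U) x) = algebraMap F (proU ℓ k F Ω U) x ∧ γ ≠ 1 ∧
        ∀ z, γ z ∈ W ↔ z ∈ W) ∧
      ∀ γ : RingAut (proU ℓ k F Ω U), (∀ c, γ (cstU ℓ k F Ω U c) = cstU ℓ k F Ω U c) →
        γ (algebraMap F (proU ℓ k F Ω U) x) = algebraMap F (proU ℓ k F Ω U) x →
        (∀ z, γ z ∈ W ↔ z ∈ W) →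
        ∃ V : Subgroup (algebraicClosure k Ω ≃ₐ[k] algebraicClosure k Ω), V.index ≠ 0 ∧
          ∀ σ : H, (σ : algebraicClosure k Ω ≃ₐ[k] algebraicClosure k Ω) ∈ V →
          (σ : algebraicClosure k Ω ≃ₐ[k] algebraicClosure k Ω) ∈ Λ →
          ∀ z, γ (s σ z) = s σ (γ z)) ∧
    (∀ (σ : algebraicClosure k Ω ≃ₐ[k] algebraicClosure k Ω) (γ : RingAut (proU ℓ k F Ω U)),
      (∀ c, γ (cstU ℓ k F Ω U c) = cstU ℓ k F Ω U (σ c)) →
      γ (algebraMap F (proU ℓ k F Ω U) x) = algebraMap F (proU ℓ k F Ω U) x →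
      ∀ W : ValuationSubring (proU ℓ k F Ω U), RaU ℓ k U x W →
        RaU ℓ k U x (W.comap (γ : proU ℓ k F Ω U →+* proU ℓ k F Ω U))) ∧
    (∀ (σ : algebraicClosure k Ω ≃ₐ[k] algebraicClosure k Ω) (γ : RingAut (proU ℓ k F Ω U)),
      (∀ c, γ (cstU ℓ k F Ω U c) = cstU ℓ k F Ω U (σ c)) →
      γ (algebraMap F (proU ℓ k F Ω U) x) = algebraMap F (proU ℓ k F Ω U) x →
      ∀ W : ValuationSubring (proU ℓ k F Ω U), RaU ℓ k U x W →
      W.comap (algebraMap F (proU ℓ k F Ω U)) ∈ U → (∀ σ z, s σ z ∈ W ↔ z ∈ W) →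
      (∀ z, γ z ∈ W ↔ z ∈ W) →
      ∃ V : Subgroup (algebraicClosure k Ω ≃ₐ[k] algebraicClosure k Ω), V.index ≠ 0 ∧
        ∀ τ ∈ V, ∃ (h1 : τ ∈ H) (h2 : σ * τ * σ⁻¹ ∈ H),
          ∀ z, γ (s ⟨τ, h1⟩ z) = s ⟨σ * τ * σ⁻¹, h2⟩ (γ z)) := by
  classical
  have hac : IsAlgClosure k (algebraicClosure k Ω) := inferInstance
  have hkb : IsAlgClosed (algebraicClosure k Ω) := hac.1
  have hch : CharZero (algebraicClosure k Ω) :=
    charZero_of_injective_algebraMap (algebraMap k (algebraicClosure k Ω)).injective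
  set P := f.map (algebraMap k (algebraicClosure k Ω)) with hP
  have hlc0 : algebraMap k (algebraicClosure k Ω) f.leadingCoeff ≠ 0 :=
    (_root_.map_ne_zero _).2 (leadingCoeff_ne_zero.2 hf0)
  have hP0 : P ≠ 0 := (Polynomial.map_ne_zero_iff (algebraMap k _).injective).2 hf0
  set B : Finset (algebraicClosure k Ω) := P.roots.toFinset with hBdef
  have hmemB : ∀ θ, θ ∈ B ↔ aeval θ f = 0 := by
    intro θ
    rw [hBdef, Multiset.mem_toFinset, mem_roots hP0, IsRoot.def, hP, eval_map]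
    rfl
  -- the product formula
  have hPx : ∀ z : Ω, P.eval₂ (algebraMap (algebraicClosure k Ω) Ω) z =
      algebraMap (algebraicClosure k Ω) Ω (algebraMap k (algebraicClosure k Ω) f.leadingCoeff) *
        ∏ e ∈ B, (z - algebraMap (algebraicClosure k Ω) Ω e) ^ (P.roots.count e) := by
    intro z
    have h1 := (IsAlgClosed.splits P).eq_prod_roots
    have h5 : P.leadingCoeff = algebraMap k (algebraicClosure k Ω) f.leadingCoeff :=
      leadingCoeff_map_of_leadingCoeff_ne_zero _ hlc0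
    rw [h5] at h1
    have h6 : ∏ e ∈ B, (z - algebraMap (algebraicClosure k Ω) Ω e) ^ (P.roots.count e) =
        (P.roots.map fun e => z - algebraMap (algebraicClosure k Ω) Ω e).prod := by
      rw [hBdef]
      exact (Finset.prod_multiset_map_count P.roots _).symm
    rw [h6]
    conv_lhs => rw [h1]
    rw [eval₂_mul, eval₂_C, ← coe_eval₂RingHom, map_multiset_prod, Multiset.map_map]
    congr 2
    refine Multiset.map_congr rfl fun a _ => ?_
    simp
  have hfx : algebraMap F Ω (aeval x f) =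
      P.eval₂ (algebraMap (algebraicClosure k Ω) Ω) (algebraMap F Ω x) := by
    rw [aeval_def, hom_eval₂, hP, eval₂_map, ← IsScalarTower.algebraMap_eq k F Ω,
      ← IsScalarTower.algebraMap_eq k (algebraicClosure k Ω) Ω]
  -- the fields
  have hX0 : Transcendental k (algebraMap F Ω x) :=
    (transcendental_algebraMap_iff (R := k) (algebraMap F Ω).injective (a := x)).2 hx
  have hrat := ratF_adj (trans_up hX0)
  haveI := hL.fin
  haveI hcl : IsAlgClosure (ratL (Ω := Ω) k x) Ω := closure_ratL k hFL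
  haveI : CharZero (ratL (Ω := Ω) k x) :=
    charZero_of_injective_algebraMap (algebraMap (algebraicClosure k Ω) _).injective
  haveI : Normal (ratL (Ω := Ω) k x) Ω := IsAlgClosure.normal _ _
  have hle : KfL (Ω := Ω) k x ≤ L := KfL_le k hFL
  have hconstW : ∀ W : ValuationSubring Ω, (∀ c : algebraicClosure k Ω,
      algebraMap (algebraicClosure k Ω) Ω c ∈ W) → ∀ c : k, algebraMap k Ω c ∈ W :=
    fun W h c => h (algebraMap k (algebraicClosure k Ω) c)
  have hval : ∀ (W : ValuationSubring Ω) (z t : Ω), t ≠ 0 → IsU W (z / t) →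
      W.valuation z = W.valuation t := by
    intro W z t ht h
    have h1 := (Pool.Agent.Y948.PS.isU_iff W).1 h
    rw [map_div₀] at h1
    rwa [div_eq_one_iff_eq] at h1
    exact (Valuation.ne_zero_iff _).2 ht
  have htopv : ∀ z : Ω, z ≠ 0 → (⊤ : ValuationSubring Ω).valuation z = 1 := by
    intro z hz0
    exact (Pool.Agent.Y948.PS.isU_iff _).1 ⟨hz0, trivial, trivial⟩
  have hu : UnrLevP (algebraicClosure k Ω) (Ab Ω U) (KfL (Ω := Ω) k x) L := by
    intro W hW hPW z hz hz0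
    by_cases htop : W = ⊤
    · subst htop
      refine ⟨1, one_mem _, one_ne_zero, ?_⟩
      rw [htopv z hz0, map_one]
    · obtain ⟨t, ht, ht0, h⟩ := hLu W (hconstW W hW) (hPW htop) z hz hz0
      exact ⟨t, ht, ht0, hval W z t ht0 h⟩
  have hfn : ∀ W : ValuationSubring Ω, (∀ c : algebraicClosure k Ω,
      algebraMap (algebraicClosure k Ω) Ω c ∈ W) → algebraMap F Ω x ∈ W →
      (∀ e ∈ B, algebraMap F Ω x - algebraMap (algebraicClosure k Ω) Ω e ∉ W.nonunits) →
      algebraMap F Ω (aeval x f) ∉ W.nonunits := by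
    intro W hW hxW hnon
    rw [hfx, hPx]
    have h5 : ∀ e ∈ B, IsU W (algebraMap F Ω x - algebraMap (algebraicClosure k Ω) Ω e) :=
      fun e he => isU_of_not_nonunit (sub_mem hxW (hW e)) (hnon e he)
    have h6 : IsU W (∏ e ∈ B,
        (algebraMap F Ω x - algebraMap (algebraicClosure k Ω) Ω e) ^ (P.roots.count e)) := by
      refine ⟨Finset.prod_ne_zero_iff.2 fun e he => pow_ne_zero _ (h5 e he).1,
        prod_mem fun e he => pow_mem (h5 e he).2.1 _, ?_⟩
      rw [← Finset.prod_inv_distrib]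
      refine prod_mem fun e he => ?_
      rw [← inv_pow]
      exact pow_mem (h5 e he).2.2 _
    have h7 : IsU W (algebraMap (algebraicClosure k Ω) Ω
        (algebraMap k (algebraicClosure k Ω) f.leadingCoeff)) :=
      ⟨(_root_.map_ne_zero _).2 hlc0, hW _, by rw [← map_inv₀]; exact hW _⟩
    have h8 := h7.mul h6
    intro h9
    rcases (nonunits_iff.1 h9).2 with h10 | h10
    · exact h8.1 h10
    · exact h10 h8.2.2
  have hHyp : Hyp ℓ (algebraicClosure k Ω)
      (⟨algebraMap F Ω x, IntermediateField.mem_adjoin_simple_self _ _⟩ : ratL (Ω := Ω) k x)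
      B (Ab Ω U) L := by
    refine ⟨hrat, hL, ?_, ?_, ?_, ?_⟩
    · intro γ W hPW htop
      have h1 : W ≠ ⊤ := by
        rintro rfl
        apply htop
        ext y
        exact ⟨fun _ => trivial, fun _ => trivial⟩
      have h2 := hPW h1
      have hγ : ∀ r ∈ IntermediateField.adjoin k {x}, γ (algebraMap F Ω r) = algebraMap F Ω r := by
        intro r hr
        have h3 : algebraMap F Ω r ∈ ratL (Ω := Ω) k x := by
          refine adjoin_le_sub (T := (ratL (Ω := Ω) k x).toSubfield.comap (algebraMap F Ω))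
            ?_ ?_ _ hr
          · intro c
            change algebraMap F Ω (algebraMap k F c) ∈ ratL (Ω := Ω) k x
            rw [← IsScalarTower.algebraMap_apply]
            exact (ratL (Ω := Ω) k x).algebraMap_mem (algebraMap k (algebraicClosure k Ω) c)
          · intro w hw
            rw [Set.mem_singleton_iff] at hw
            subst hw
            exact IntermediateField.mem_adjoin_simple_self _ _
        exact γ.commutes (⟨algebraMap F Ω r, h3⟩ : ratL (Ω := Ω) k x)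
      refine hUsat _ h2 _ (fun c => ?_) (fun r hr => ?_)
      · change γ (algebraMap F Ω (algebraMap k F c)) ∈ W
        rw [hγ _ ((IntermediateField.adjoin k {x}).algebraMap_mem c)]
        exact hUk _ h2 c
      · change γ (algebraMap F Ω r) ∈ W ↔ algebraMap F Ω r ∈ W
        rw [hγ r hr]
    · intro W hW hxW hnon htop
      refine hUf _ (fun h => htop (eq_top_of_alg (F := F) W fun c => ?_)) (fun c => ?_) hxW (fun h => ?_)
      · have h1 : c ∈ W.comap (algebraMap F Ω) := by rw [h]; trivial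
        exact h1
      · change algebraMap F Ω (algebraMap k F c) ∈ W
        rw [← IsScalarTower.algebraMap_apply]
        exact hconstW W hW c
      · exact hfn W hW hxW hnon ((non_incl (algebraMap F Ω) W _).1 h)
    · intro W hW hxW hnon z hz hz0
      obtain ⟨t, ht, ht0, h⟩ := hLf W (hconstW W hW) hxW (hfn W hW hxW hnon) z hz hz0
      exact ⟨⟨t, ht⟩, fun h0 => ht0 (congrArg Subtype.val h0), hval W z t ht0 h⟩
    · obtain ⟨z, hz, hzL⟩ := hbig
      refine ⟨z, (mem_maxPro hrat hL le_rfl (unrLev_refl L) z).1 ?_, hzL⟩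
      refine (maxPro_congr (RingEquiv.refl L) (fun a => rfl) (fun W => ⟨fun h c => ?_,
        fun h c => ?_⟩) z).1 hz
      · exact h (algebraMap k (algebraicClosure k Ω) c)
      · exact Pool.Agent.W620.SC.const_mem h c.2
  have hMN : ∀ z, z ∈ MFU ℓ (algebraicClosure k Ω) (Ab Ω U) L ↔ z ∈ proU ℓ k F Ω U := by
    intro z
    have h1 : z ∈ MFU ℓ (algebraicClosure k Ω) (Ab Ω U) L ↔
        z ∈ maxU ℓ (algebraicClosure k Ω) (KfL (Ω := Ω) k x) Ω (Ab Ω U) :=
      (mem_maxU hrat hL hle hu hHyp.conj z).symm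
    rw [h1]
    let e : KfL (Ω := Ω) k x ≃+* geomF k F Ω :=
      { toFun := fun w => ⟨w.1, w.2⟩
        invFun := fun w => ⟨w.1, w.2⟩
        left_inv := fun w => rfl
        right_inv := fun w => rfl
        map_mul' := fun w w' => rfl
        map_add' := fun w w' => rfl }
    refine maxU_congr (Ab Ω U) e (fun a => rfl) (fun W => ⟨fun h c => ?_, fun h c => ?_⟩) z
    · exact Pool.Agent.W620.SC.const_mem h c.2
    · exact h (algebraMap k (algebraicClosure k Ω) c)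
  let eqv : MFU ℓ (algebraicClosure k Ω) (Ab Ω U) L ≃+* proU ℓ k F Ω U :=
    { toFun := fun w => ⟨w.1, (hMN _).1 w.2⟩
      invFun := fun w => ⟨w.1, (hMN _).2 w.2⟩
      left_inv := fun w => rfl
      right_inv := fun w => rfl
      map_mul' := fun w w' => rfl
      map_add' := fun w w' => rfl }
  have heqv : ∀ w : MFU ℓ (algebraicClosure k Ω) (Ab Ω U) L,
    ((eqv w : proU ℓ k F Ω U) : Ω) = (w : Ω) := fun w => rfl
  obtain ⟨c1, c2, c3⟩ := part hHyp eqv (cstU ℓ k F Ω U) (fun c => Subtype.ext rfl)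
    (algebraMap F (proU ℓ k F Ω U) x) (Subtype.ext rfl) H hHo s hps hcont Λ hΛn (hRR B hmemB)
  -- translation
  have hRV : ∀ W : ValuationSubring (proU ℓ k F Ω U), RV eqv W ↔
      ((∀ c : k, algebraMap F (proU ℓ k F Ω U) (algebraMap k F c) ∈ W) ∧
        RamU ℓ k U x (proU ℓ k F Ω U) W) := by
    intro W
    constructor
    · rintro ⟨a1, ⟨z, hz0, hzt⟩⟩
      refine ⟨fun c => ?_, z, z.2, hz0, fun t ht ht0 => ?_⟩
      · have h5 := a1 (algebraMap k (algebraicClosure k Ω) c)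
        have h6 : eqv (algebraMap (algebraicClosure k Ω) _
            (algebraMap k (algebraicClosure k Ω) c)) =
            algebraMap F (proU ℓ k F Ω U) (algebraMap k F c) :=
          Subtype.ext (IsScalarTower.algebraMap_apply k F Ω c)
        rwa [h6] at h5
      · exact hzt ⟨(t : Ω), ht⟩ (fun h => ht0 (Subtype.ext (show (t : Ω) = 0 from
          congrArg (fun w : ratL (Ω := Ω) k x => (w : Ω)) h)))
    · rintro ⟨a1, z, -, hz0, hzt⟩
      refine ⟨fun c => const_mem_N _ W a1 c _ rfl, ⟨z, hz0, fun t ht => ?_⟩⟩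
      refine hzt (eqv (algebraMap _ _ t)) t.2 ?_
      rw [Ne, map_eq_zero_iff _ eqv.injective, map_eq_zero]
      exact ht
  have hOV : ∀ W : ValuationSubring (proU ℓ k F Ω U), W ≠ ⊤ →
      (OV eqv W ↔ W.comap (algebraMap F (proU ℓ k F Ω U)) ∈ U) := by
    intro W hW
    have hF : ∀ W0 : ValuationSubring Ω,
        W0.comap (algebraMap (MFU ℓ (algebraicClosure k Ω) (Ab Ω U) L) Ω) =
        W.comap (eqv : MFU ℓ (algebraicClosure k Ω) (Ab Ω U) L →+* proU ℓ k F Ω U) →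
        W0.comap (algebraMap F Ω) = W.comap (algebraMap F (proU ℓ k F Ω U)) := by
      intro W0 hW0
      ext z
      have h1 : (⟨algebraMap F Ω z, (hMN _).2 (algebraMap F (proU ℓ k F Ω U) z).2⟩ :
          MFU ℓ (algebraicClosure k Ω) (Ab Ω U) L) ∈
          W0.comap (algebraMap (MFU ℓ (algebraicClosure k Ω) (Ab Ω U) L) Ω) ↔
          (⟨algebraMap F Ω z, (hMN _).2 (algebraMap F (proU ℓ k F Ω U) z).2⟩ :
          MFU ℓ (algebraicClosure k Ω) (Ab Ω U) L) ∈
          W.comap (eqv : MFU ℓ (algebraicClosure k Ω) (Ab Ω U) L →+* proU ℓ k F Ω U) := by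
        rw [hW0]
      exact h1
    constructor
    · intro h
      obtain ⟨W0, hW0⟩ := a_extv (MFU ℓ (algebraicClosure k Ω) (Ab Ω U) L) Ω
        (W.comap (eqv : MFU ℓ (algebraicClosure k Ω) (Ab Ω U) L →+* proU ℓ k F Ω U))
      have h1 := h W0 hW0 (by
        rintro rfl
        apply hW
        ext y
        refine ⟨fun _ => trivial, fun _ => ?_⟩
        have h2 : eqv.symm y ∈ (⊤ : ValuationSubring Ω).comap
            (algebraMap (MFU ℓ (algebraicClosure k Ω) (Ab Ω U) L) Ω) := trivial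
        rw [hW0] at h2
        have h3 : eqv (eqv.symm y) ∈ W := h2
        rwa [eqv.apply_symm_apply] at h3)
      rwa [hF W0 hW0] at h1
    · intro h W0 hW0 _
      rw [hF W0 hW0]
      exact h
  have hRa : ∀ W : ValuationSubring (proU ℓ k F Ω U), RaU ℓ k U x W ↔ RV eqv W := by
    intro W
    rw [hRV]
    exact ⟨fun h => ⟨h.1, h.2⟩, fun h => ⟨h.1, h.2⟩⟩
  have htop : ∀ W : ValuationSubring (proU ℓ k F Ω U), RV eqv W → W ≠ ⊤ := by
    rintro W hW rfl
    apply hW.down.ne_top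
    ext y
    exact ⟨fun _ => trivial, fun _ => trivial⟩
  refine ⟨?_, ?_, ?_, ?_, ?_⟩
  · intro V hV γ h1 h2 h3 h4
    obtain ⟨W, b1, b2, b3, b4⟩ := c1 V hV γ h1 h2 h3 h4
    exact ⟨W, (hRa W).2 b1, (hOV W (htop W b1)).1 b2, b3, b4⟩
  · intro V hV W hW hsW
    obtain ⟨b1, b2⟩ := c2 V hV W ((hRa W).1 hW) hsW
    exact ⟨b1, fun V' hV' W' hW' => b2 V' hV' W' ((hRa W').1 hW')⟩
  · intro W hW hWU hsW
    exact c3 W ((hRa W).1 hW) ((hOV W (htop W ((hRa W).1 hW))).2 hWU) hsW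
  · intro σ γ hγc hγx W hW
    rw [hRa]
    exact rv_comap hHyp eqv (cstU ℓ k F Ω U) (fun c => Subtype.ext rfl)
      (algebraMap F (proU ℓ k F Ω U) x) (Subtype.ext rfl) σ γ hγc hγx ((hRa W).1 hW)
  · intro σ γ hγc hγx W hW hWU hsW hγW
    exact norm_stab hHyp eqv (cstU ℓ k F Ω U) (fun c => Subtype.ext rfl)
      (algebraMap F (proU ℓ k F Ω U) x) (Subtype.ext rfl) H hHo s hps hcont ((hRa W).1 hW)
      ((hOV W (htop W ((hRa W).1 hW))).2 hWU) hsW σ γ hγc hγx hγW

end main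

end Pool.Agent.H889.FD
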