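import Pool.Agent.H889.FD.Open
import Pool.Agent.H889.SY.Inst
import Pool.Graph.R_pool_sql_team_seeded_b0a926ef.R925.Q.FoD

/-! Rigidity over large extensions of the constants. -/

set_option autoImplicit false
set_option linter.all false

open Polynomial FF

namespace Pool.Agent.H889.FD

open Pool.Agent.Y157.PS Pool.Agent.Y948.PS Pool.Agent.H889.PS Pool.Agent.H889.LM
open Pool.Agent.R925.Q (SecR Lift frob_inf fro_pow GP Lg fix_normal)
open Pool.Agent.H889.SY (RR rigA RigN)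

/-- rigidity for all coverings branched over `B` and infinity -/
def RRL (ℓ : ℕ) [Fact ℓ.Prime] (k κ : Type) [Field k] [Field κ] [Algebra k κ] (B : Finset κ)
    (Λ : Subgroup (κ ≃ₐ[k] κ)) : Prop :=
  MuB ℓ k κ Λ ∧ ∀ (R M : Type) [Field R] [Field M] [Algebra κ R] [Algebra R M] [Algebra κ M]
    [IsScalarTower κ R M] (x : R) (ε : κ → ℕ) (ι : ℕ) (N₀ : IntermediateField R M),
    GCov ℓ κ R M x B ε ι N₀ → RigL k κ x N₀ Λ

theorem Bg.index_top {G : Type} [Group G] {H : Subgroup G} (h : Bg ⊤ H) : H.index ≠ 0 := by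
  obtain ⟨U, hU, hle⟩ := h
  rw [inf_top_eq] at hle
  haveI : U.FiniteIndex := ⟨hU⟩
  exact (Subgroup.finiteIndex_of_le hle).index_ne_zero

theorem rrl_top {ℓ : ℕ} [Fact ℓ.Prime] {k κ : Type} [Field k] [Field κ] [Algebra k κ]
    {B : Finset κ} (h : RR ℓ k κ B) : RRL ℓ k κ B ⊤ := by
  refine ⟨fun H hH => h.1 H hH.index_top, ?_⟩
  intro R M _ _ _ _ _ _ x ε ι N₀ hC U hU
  exact h.2 R M x ε ι N₀ hC U hU.index_top

/-- bound for the roots of unity which are fixed by a power of a Frobenius element -/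
theorem mu_bound {κ : Type} [Field κ] [CharZero κ] {ℓ : ℕ} [Fact ℓ.Prime] {V : ValuationSubring κ}
    (hl : IsU V (ℓ : κ)) {Q : ℕ} (hQ2 : 1 < Q) {φ : κ ≃+* κ}
    (hfro : ∀ c ∈ V, φ c - c ^ Q ∈ V.nonunits) :
    ∃ b : ℕ, ∀ (m : ℕ) (ζ : κ), ζ ^ (ℓ ^ m) = 1 → φ ζ = ζ → ζ ^ (ℓ ^ b) = 1 := by
  refine ⟨Q - 1, fun m ζ hζ hfix => ?_⟩
  have hℓp := (Fact.out : ℓ.Prime)
  have h1 : φ ζ = ζ ^ Q := Pool.Agent.R925.Q.frob_rou' (φ := φ) hl hfro hζ
  rw [hfix] at h1
  have hζ0 : ζ ≠ 0 := by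
    rintro rfl
    rw [zero_pow (pow_pos hℓp.pos m).ne'] at hζ
    exact zero_ne_one hζ
  have h2 : ζ ^ (Q - 1) = 1 := by
    have h3 : ζ ^ (Q - 1) * ζ = ζ := by
      rw [← pow_succ, Nat.sub_add_cancel hQ2.le, ← h1]
    exact mul_right_cancel₀ hζ0 (h3.trans (one_mul _).symm)
  obtain ⟨j, -, hj⟩ := (Nat.dvd_prime_pow hℓp).1 (orderOf_dvd_of_pow_eq_one hζ)
  have h4 : ℓ ^ j ∣ Q - 1 := by rw [← hj]; exact orderOf_dvd_of_pow_eq_one h2
  have h5 : ℓ ^ j ≤ Q - 1 := Nat.le_of_dvd (by omega) h4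
  have h6 : j < ℓ ^ j := Nat.lt_pow_self hℓp.one_lt
  rw [← orderOf_dvd_iff_pow_eq_one, hj]
  exact pow_dvd_pow ℓ (by omega)

section

variable {A k κ : Type} [CommRing A] [IsDomain A] [IsDiscreteValuationRing A]
    [Finite (IsLocalRing.ResidueField A)] [Field k] [CharZero k] [Algebra A k] [IsFractionRing A k]
    [Field κ] [Algebra k κ] [Algebra A κ] [IsScalarTower A k κ] [IsAlgClosure k κ]
    {V : ValuationSubring κ}

/-- Frobenius elements in all large subgroups -/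
theorem frob_large (hVa : ∀ a : A, algebraMap A κ a ∈ V)
    (hVm : ∀ a ∈ IsLocalRing.maximalIdeal A, algebraMap A κ a ∈ V.nonunits)
    (K' : IntermediateField k κ)
    (hfin : Finite (IsLocalRing.ResidueField (V.comap (algebraMap K' κ))))
    {U : Subgroup (κ ≃ₐ[k] κ)} (hU : Bg K'.fixingSubgroup U) :
    ∃ φ ∈ U, ∃ n : ℕ, 0 < n ∧ Fro V (Nat.card (IsLocalRing.ResidueField A) ^ n) φ := by
  haveI : IsAlgClosed κ := IsAlgClosure.isAlgClosed k
  haveI : Algebra.IsAlgebraic k κ := IsAlgClosure.isAlgebraic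
  obtain ⟨φ, hφ, hfro⟩ := frob_inf hVa hVm K' hfin
  -- the residue field of `A` is contained in the one of `K'`
  obtain ⟨O, hO⟩ : ∃ O, O = V.comap (algebraMap K' κ) := ⟨_, rfl⟩
  rw [← hO] at hfin hfro
  have hOm : ∀ w : K', w ∈ O ↔ (w : κ) ∈ V := fun w => by rw [hO]; rfl
  let ι : A →+* O :=
    { toFun := fun a => ⟨algebraMap k K' (algebraMap A k a), by
        rw [hOm]
        show (algebraMap k κ (algebraMap A k a)) ∈ V
        rw [← IsScalarTower.algebraMap_apply]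
        exact hVa a⟩
      map_one' := by apply Subtype.ext; simp
      map_mul' := fun a b => by apply Subtype.ext; simp
      map_zero' := by apply Subtype.ext; simp
      map_add' := fun a b => by apply Subtype.ext; simp }
  have hιm : ∀ a ∈ IsLocalRing.maximalIdeal A, IsLocalRing.residue O (ι a) = 0 := by
    intro a ha
    rw [residue_zero_iff, nonunits_iff]
    have h1 := nonunits_iff.1 (hVm a ha)
    have h3 : ((ι a : K') : κ) = algebraMap A κ a := (IsScalarTower.algebraMap_apply A k κ a).symm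
    refine ⟨(ι a).2, ?_⟩
    rcases h1.2 with h4 | h4
    · exact Or.inl (Subtype.ext (by rw [h3, h4]; rfl))
    · refine Or.inr ?_
      rw [hOm]
      have h5 : (((ι a : K')⁻¹ : K') : κ) = (algebraMap A κ a)⁻¹ := by rw [← h3]; rfl
      rw [h5]
      exact h4
  letI : Algebra (IsLocalRing.ResidueField A) (IsLocalRing.ResidueField O) :=
    (Ideal.Quotient.lift (IsLocalRing.maximalIdeal A) ((IsLocalRing.residue O).comp ι)
      hιm).toAlgebra
  have hcard : Nat.card (IsLocalRing.ResidueField O) = Nat.card (IsLocalRing.ResidueField A) ^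
      Module.finrank (IsLocalRing.ResidueField A) (IsLocalRing.ResidueField O) :=
    Module.natCard_eq_pow_finrank
  have hpos : 0 < Module.finrank (IsLocalRing.ResidueField A) (IsLocalRing.ResidueField O) := by
    haveI : Module.Finite (IsLocalRing.ResidueField A) (IsLocalRing.ResidueField O) :=
      Module.Finite.of_finite
    exact Module.finrank_pos
  rw [hcard] at hfro
  obtain ⟨U', hU', hle⟩ := hU
  obtain ⟨n, hn, -, hn'⟩ := Subgroup.exists_pow_mem_of_index_ne_zero hU' φ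
  refine ⟨φ ^ n, hle ⟨hn', pow_mem hφ n⟩, _, Nat.mul_pos hpos hn, ?_⟩
  have h1 := fro_pow hfro n
  rw [← pow_mul] at h1
  exact h1

/-- rigidity over an infinite extension with a finite residue field -/
theorem rrl_inf {ℓ : ℕ} [Fact ℓ.Prime]
    (hVa : ∀ a : A, algebraMap A κ a ∈ V)
    (hVm : ∀ a ∈ IsLocalRing.maximalIdeal A, algebraMap A κ a ∈ V.nonunits)
    (hℓA : IsUnit (ℓ : A)) {B : Finset κ} (hG : Good V B)
    (K' : IntermediateField k κ)
    (hfin : Finite (IsLocalRing.ResidueField (V.comap (algebraMap K' κ)))) :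
    RRL ℓ k κ B K'.fixingSubgroup := by
  haveI : IsAlgClosed κ := IsAlgClosure.isAlgClosed k
  haveI : CharZero κ := charZero_of_injective_algebraMap (algebraMap k κ).injective
  haveI : Algebra.IsAlgebraic k κ := IsAlgClosure.isAlgebraic
  obtain ⟨ϖ, hϖ⟩ := IsDiscreteValuationRing.exists_irreducible A
  have hBase : IB ℓ A k κ V ϖ := ⟨hℓA, hVa, hVm, hϖ⟩
  refine ⟨fun H hH => ?_, ?_⟩
  · obtain ⟨φ, hφ, n, hn, hfro⟩ := frob_large hVa hVm K' hfin hH
    obtain ⟨b, hb⟩ := mu_bound (φ := (φ : κ ≃+* κ)) hBase.ell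
      (Nat.one_lt_pow hn.ne' (Finite.one_lt_card (α := IsLocalRing.ResidueField A))) hfro.2
    exact ⟨b, fun m ζ hζ hfix => hb m ζ hζ (hfix φ hφ)⟩
  · intro R M _ _ _ _ _ _ x ε ι N₀ hC U hU
    obtain ⟨φ, hφ, n, hn, hfro⟩ := frob_large hVa hVm K' hfin hU
    exact ⟨φ, hφ, fun ψ hL δ => rigA hVa hVm hℓA hC hG hn hfro hL δ⟩

end

section

variable {k κ : Type} [Field k] [CharZero k] [Field κ] [Algebra k κ] [IsAlgClosure k κ]
  {ℓ : ℕ} [Fact ℓ.Prime] {f : k[X]}

theorem rrl_good {V : ValuationSubring κ} (hV : GP ℓ f V) (K' : IntermediateField k κ)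
    (hfin : Finite (IsLocalRing.ResidueField (V.comap (algebraMap K' κ))))
    {B : Finset κ} (hB : ∀ θ, θ ∈ B ↔ aeval θ f = 0) :
    RRL ℓ k κ B K'.fixingSubgroup := by
  haveI : IsAlgClosed κ := IsAlgClosure.isAlgClosed k
  haveI : Algebra.IsAlgebraic k κ := IsAlgClosure.isAlgebraic
  haveI := hV.dvr
  haveI := hV.fin
  letI : Algebra (V.comap (algebraMap k κ)) κ :=
    ((algebraMap k κ).comp (algebraMap (V.comap (algebraMap k κ)) k)).toAlgebra
  haveI hst : IsScalarTower (V.comap (algebraMap k κ)) k κ :=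
    IsScalarTower.of_algebraMap_eq (fun _ => rfl)
  have hmem : ∀ z : k, z ∈ V.comap (algebraMap k κ) ↔ algebraMap k κ z ∈ V := fun z => Iff.rfl
  have hVa : ∀ a : V.comap (algebraMap k κ), algebraMap (V.comap (algebraMap k κ)) κ a ∈ V :=
    fun a => a.2
  have hVm : ∀ a ∈ IsLocalRing.maximalIdeal (V.comap (algebraMap k κ)),
      algebraMap (V.comap (algebraMap k κ)) κ a ∈ V.nonunits := by
    intro a ha
    have h1 := nonunits_iff.1 ((ValuationSubring.mem_nonunits_iff_exists_mem_maximalIdeal).2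
      ⟨a.2, ha⟩)
    refine nonunits_iff.2 ⟨a.2, ?_⟩
    rcases h1.2 with h2 | h2
    · left
      show algebraMap k κ (a : k) = 0
      rw [h2, map_zero]
    · right
      rw [hmem, map_inv₀] at h2
      exact h2
  have hℓk : (ℓ : k) ≠ 0 := by exact_mod_cast (Fact.out : ℓ.Prime).ne_zero
  have hℓA : IsUnit ((ℓ : ℕ) : V.comap (algebraMap k κ)) := by
    have h1 : ((ℓ : k))⁻¹ ∈ V.comap (algebraMap k κ) := by
      rw [hmem, map_inv₀, map_natCast]
      exact hV.unit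
    refine IsUnit.of_mul_eq_one ⟨_, h1⟩ ?_
    apply Subtype.ext
    show (((ℓ : ℕ) : V.comap (algebraMap k κ)) : k) * (ℓ : k)⁻¹ = 1
    have h2 : ((((ℓ : ℕ) : V.comap (algebraMap k κ))) : k) = (ℓ : k) := by norm_cast
    rw [h2, mul_inv_cancel₀ hℓk]
  have hG : Good V B := by
    refine ⟨fun e he => hV.roots e ((hB e).1 he), fun e he e' he' hne => ?_⟩
    exact ⟨sub_ne_zero.2 hne, sub_mem (hV.roots e ((hB e).1 he)) (hV.roots e' ((hB e').1 he')),
      hV.dist e e' ((hB e).1 he) ((hB e').1 he') hne⟩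
  exact rrl_inf hVa hVm hℓA hG K' hfin

theorem rrl_lg {B : Finset κ} (hB : ∀ θ, θ ∈ B ↔ aeval θ f = 0) (h : RR ℓ k κ B)
    {K' : IntermediateField k κ} (hK : Lg ℓ f K') : RRL ℓ k κ B K'.fixingSubgroup := by
  rcases hK.2 with h1 | ⟨V, hV, hfin⟩
  · rw [h1, IntermediateField.fixingSubgroup_bot]
    exact rrl_top h
  · exact rrl_good hV K' hfin hB

end

theorem rigU_of {k κ R Ω : Type} [Field k] [Field κ] [Algebra k κ]
    [IsAlgClosed κ] [CharZero κ] [Field R] [Field Ω] [Algebra κ R]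
    [Algebra R Ω] [Algebra κ Ω] [IsScalarTower κ R Ω] {x : R} {ℓ : ℕ} [Fact ℓ.Prime]
    {N0 : IntermediateField R Ω} {P : ValuationSubring Ω → Prop} [IsAlgClosure R Ω]
    {B : Finset κ} {Λ : Subgroup (κ ≃ₐ[k] κ)} (hRR : RRL ℓ k κ B Λ) (h : Hyp ℓ κ x B P N0) :
    RigU ℓ k κ x P N0 Λ := by
  intro N hN hNM
  obtain ⟨hNM', ε, ι, hC⟩ := gcovN h hN
  exact hRR.2 R (MF ℓ κ N) x ε ι _ hC

end Pool.Agent.H889.FD
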