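import Pool.Agent.H889.FD.Part

/-! Normalisers of sections of ramification points. -/

set_option autoImplicit false
set_option linter.all false

open Polynomial FF

namespace Pool.Agent.H889.FD

open Pool.Agent.Y157.PS Pool.Agent.Y948.PS Pool.Agent.H889.PS Pool.Agent.H889.LM
open Pool.Agent.R925.Q (SecR Lift PSec resk exists_gal phi_R)
open Pool.Agent.H889.SY (RamV RV OV placeU chi_inj ne_of_ord MFU_normal chi_one)

section stab

variable {k κ R Ω : Type} [Field κ] [IsAlgClosed κ] [CharZero κ] [Field R] [Field Ω] [Algebra κ R]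
  [Algebra R Ω] [Algebra κ Ω] [IsScalarTower κ R Ω] {x : R} {ℓ : ℕ} [Fact ℓ.Prime]
  {N0 : IntermediateField R Ω} {P : ValuationSubring Ω → Prop} [IsAlgClosure R Ω]
  {B : Finset κ}

/-- an element of the stabiliser of the valuation ring of a point of `U` is determined by its action on
a uniformiser -/
theorem stab_rho (h : Hyp ℓ κ x B P N0) {W : ValuationSubring (MFU ℓ κ P N0)}
    (hκ : ∀ c : κ, algebraMap κ _ c ∈ W) (htop : W ≠ ⊤)
    (hP : ∀ W0 : ValuationSubring Ω, W0.comap (algebraMap (MFU ℓ κ P N0) Ω) = W → P W0) :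
    ∃ ρ : MFU ℓ κ P N0, ∀ γ : MFU ℓ κ P N0 ≃ₐ[R] MFU ℓ κ P N0,
      (∀ z, γ z ∈ W ↔ z ∈ W) → γ ρ = ρ → γ = 1 := by
  obtain ⟨hNM, Pl, hPl, ρ, hρ, hρ1⟩ := placeU h hκ htop hP
  haveI := MFU_normal h
  refine ⟨ρ, fun γ hγ hγρ => ?_⟩
  have hfix : Fixes Pl γ := by
    refine fixes_of_O Pl (γ : MFU ℓ κ P N0 ≃+* MFU ℓ κ P N0) (RingEquiv.refl κ) (fun c => ?_)
      fun z => ?_
    · change γ (algebraMap κ _ c) = algebraMap κ _ c
      rw [IsScalarTower.algebraMap_apply κ R (MFU ℓ κ P N0)]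
      exact γ.commutes _
    · rw [hPl]
      exact hγ z
  refine chi_inj h.rat (lev_restrict hNM h.lev) hfix hρ hρ1 ?_
  rw [hγρ]
  exact chi_one (R := R) (ne_of_ord hρ1)

end stab

section part

variable {k κ R Ω N : Type} [Field k] [CharZero k]
    [Field κ] [Algebra k κ] [IsAlgClosure k κ] [IsAlgClosed κ] [CharZero κ]
    [Field R] [Field Ω] [Field N] [Algebra κ R] [Algebra R Ω] [Algebra κ Ω]
    [IsScalarTower κ R Ω] [IsAlgClosure R Ω]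
    {B : Finset κ} {ℓ : ℕ} [Fact ℓ.Prime] {P : ValuationSubring Ω → Prop}
    {N0 : IntermediateField R Ω}

/-- the automorphisms over `σ` which fix `x` permute the ramified valuation rings -/
theorem rv_comap {x' : R} (h : Hyp ℓ κ x' B P N0) (eqv : MFU ℓ κ P N0 ≃+* N)
    (cst : κ → N) (hcst : ∀ c, cst c = eqv (algebraMap κ _ c)) (xN : N)
    (hx : eqv (algebraMap R (MFU ℓ κ P N0) x') = xN)
    (σ : κ ≃ₐ[k] κ) (γ : RingAut N) (hγc : ∀ c, γ (cst c) = cst (σ c)) (hγx : γ xN = xN)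
    {W : ValuationSubring N} (hW : RV eqv W) : RV eqv (W.comap (γ : N →+* N)) := by
  obtain ⟨a1, z, hz0, hzt⟩ := hW
  refine ⟨fun c => ?_, γ.symm z, (map_ne_zero_iff _ γ.symm.injective).2 hz0, fun t ht hu => ?_⟩
  · change γ (eqv (algebraMap κ _ c)) ∈ W
    rw [← hcst, hγc, hcst]
    exact a1 _
  · rw [comap_isU, map_div₀] at hu
    have h1 : (γ : N →+* N) (γ.symm z) = z := γ.apply_symm_apply z
    rw [h1] at hu
    obtain ⟨t', ht'⟩ := phi_R h.rat ((eqv.trans γ).trans eqv.symm) (σ : κ ≃+* κ) (fun c => by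
      change eqv.symm (γ (eqv (algebraMap κ _ c))) = _
      rw [← hcst, hγc, hcst, eqv.symm_apply_apply]
      rfl) (by
      change eqv.symm (γ (eqv (algebraMap R _ x'))) = _
      rw [hx, hγx, ← hx, eqv.symm_apply_apply]) t
    have h2 : γ (eqv (algebraMap R _ t)) = eqv (algebraMap R _ t') := by
      have h3 : eqv.symm (γ (eqv (algebraMap R _ t))) = algebraMap R _ t' := ht'
      rw [← h3, eqv.apply_symm_apply]
    have h4 : (γ : N →+* N) (eqv (algebraMap R _ t)) = eqv (algebraMap R _ t') := h2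
    rw [h4] at hu
    refine hzt t' ?_ hu
    rintro rfl
    apply ht
    rw [map_zero, map_zero] at h2
    have h5 := (map_eq_zero_iff γ γ.injective).1 h2
    have h6 := (map_eq_zero_iff eqv eqv.injective).1 h5
    exact (algebraMap R (MFU ℓ κ P N0)).injective (h6.trans (map_zero _).symm)

/-- the decomposition group of a ramification point normalises its sections -/
theorem norm_stab {x' : R} (h : Hyp ℓ κ x' B P N0) (eqv : MFU ℓ κ P N0 ≃+* N)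
    (cst : κ → N) (hcst : ∀ c, cst c = eqv (algebraMap κ _ c)) (xN : N)
    (hx : eqv (algebraMap R (MFU ℓ κ P N0) x') = xN)
    (H : Subgroup (κ ≃ₐ[k] κ)) (hHo : IsOpen (H : Set (κ ≃ₐ[k] κ)))
    (s : H →* RingAut N) (hps : PSec cst xN H s)
    (hcont : ∀ z, ∃ U : Subgroup (κ ≃ₐ[k] κ), IsOpen (U : Set (κ ≃ₐ[k] κ)) ∧
      ∀ σ : H, (σ : κ ≃ₐ[k] κ) ∈ U → s σ z = z)
    {W : ValuationSubring N} (hW : RV eqv W) (hWP : OV eqv W)
    (hsW : ∀ σ z, s σ z ∈ W ↔ z ∈ W)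
    (σ : κ ≃ₐ[k] κ) (γ : RingAut N) (hγc : ∀ c, γ (cst c) = cst (σ c)) (hγx : γ xN = xN)
    (hγW : ∀ z, γ z ∈ W ↔ z ∈ W) :
    ∃ V : Subgroup (κ ≃ₐ[k] κ), V.index ≠ 0 ∧ ∀ τ ∈ V, ∃ (h1 : τ ∈ H) (h2 : σ * τ * σ⁻¹ ∈ H),
      ∀ z, γ (s ⟨τ, h1⟩ z) = s ⟨σ * τ * σ⁻¹, h2⟩ (γ z) := by
  classical
  haveI : IsAlgClosed Ω := IsAlgClosure.isAlgClosed R
  haveI : Algebra.IsAlgebraic k κ := IsAlgClosure.isAlgebraic
  haveI : Normal k κ := IsAlgClosure.normal k κ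
  haveI : Algebra.IsSeparable k κ := inferInstance
  haveI hgal : IsGalois k κ := ⟨⟩
  have hidx : ∀ {U : Subgroup (κ ≃ₐ[k] κ)}, IsOpen (U : Set (κ ≃ₐ[k] κ)) → U.index ≠ 0 := by
    intro U hU
    haveI := Subgroup.quotient_finite_of_isOpen U hU
    exact (Subgroup.finiteIndex_of_finite_quotient (H := U)).index_ne_zero
  obtain ⟨ρ, hρ⟩ := stab_rho h hW.down.con hW.down.ne_top hWP
  obtain ⟨V1, hV1, hV1'⟩ := hcont (γ.symm (eqv ρ))
  obtain ⟨V2, hV2, hV2'⟩ := hcont (eqv ρ)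
  refine ⟨(V1 ⊓ H) ⊓ (V2 ⊓ H).comap (MulAut.conj σ).toMonoidHom,
    Subgroup.index_inf_ne_zero (Subgroup.index_inf_ne_zero (hidx hV1) (hidx hHo)) ?_, ?_⟩
  · rw [Subgroup.index_comap_of_surjective _ (MulAut.conj σ).surjective]
    exact Subgroup.index_inf_ne_zero (hidx hV2) (hidx hHo)
  rintro τ ⟨⟨h1, h2⟩, h3⟩
  have h3' : σ * τ * σ⁻¹ ∈ V2 ⊓ H := h3
  refine ⟨h2, h3'.2, ?_⟩
  -- the commutator
  obtain ⟨δ, hδ⟩ : ∃ δ : RingAut N, δ = (s ⟨σ * τ * σ⁻¹, h3'.2⟩)⁻¹ * γ * s ⟨τ, h2⟩ * γ⁻¹ :=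
    ⟨_, rfl⟩
  have hinv : ∀ (g : RingAut N) z, g⁻¹ (g z) = z := fun g z => g.symm_apply_apply z
  have hinv' : ∀ (g : RingAut N) z, g (g⁻¹ z) = z := fun g z => g.apply_symm_apply z
  have hδz : ∀ z, δ z = (s ⟨σ * τ * σ⁻¹, h3'.2⟩)⁻¹ (γ (s ⟨τ, h2⟩ (γ⁻¹ z))) := fun z => by
    rw [hδ]; rfl
  have hδ' : ∀ z, s ⟨σ * τ * σ⁻¹, h3'.2⟩ (δ z) = γ (s ⟨τ, h2⟩ (γ⁻¹ z)) := fun z => by
    rw [hδz, hinv']
  have hγc' : ∀ c, γ⁻¹ (cst c) = cst (σ⁻¹ c) := by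
    intro c
    apply γ.injective
    rw [hinv', hγc]
    congr 1
    exact (σ.apply_symm_apply c).symm
  have hδc : ∀ c, δ (cst c) = cst c := by
    intro c
    apply (s ⟨σ * τ * σ⁻¹, h3'.2⟩).injective
    rw [hδ', hγc', hps.const, hγc, hps.const]
    rfl
  have hδx : δ xN = xN := by
    apply (s ⟨σ * τ * σ⁻¹, h3'.2⟩).injective
    rw [hδ', hps.fixx]
    have h5 : γ⁻¹ xN = xN := by
      apply γ.injective
      rw [hinv', hγx]
    rw [h5, hps.fixx, hγx]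
  have hδW : ∀ z, δ z ∈ W ↔ z ∈ W := by
    intro z
    rw [← hsW ⟨σ * τ * σ⁻¹, h3'.2⟩ (δ z), hδ', hγW, hsW]
    have h5 := hγW (γ⁻¹ z)
    rw [hinv'] at h5
    exact h5.symm
  have hδρ : δ (eqv ρ) = eqv ρ := by
    apply (s ⟨σ * τ * σ⁻¹, h3'.2⟩).injective
    rw [hδ', hV2' ⟨σ * τ * σ⁻¹, h3'.2⟩ h3'.1]
    have h5 : s ⟨τ, h2⟩ (γ⁻¹ (eqv ρ)) = γ⁻¹ (eqv ρ) := hV1' ⟨τ, h2⟩ h1
    rw [h5, hinv']
  obtain ⟨g, hg⟩ : ∃ g : MFU ℓ κ P N0 ≃ₐ[R] MFU ℓ κ P N0, (∀ z, eqv (g z) = δ (eqv z)) := by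
    letI : Algebra R N := (((eqv : MFU ℓ κ P N0 →+* N).comp (algebraMap R _))).toAlgebra
    exact exists_gal (F := R) h.rat eqv (x := x') rfl δ (fun c => by rw [← hcst]; exact hδc c)
      (by change δ (eqv (algebraMap R _ x')) = eqv (algebraMap R _ x'); rw [hx, hδx])
  have hg1 : g = 1 := by
    refine hρ g (fun z => ?_) ?_
    · change eqv (g z) ∈ W ↔ eqv z ∈ W
      rw [hg]
      exact hδW _
    · apply eqv.injective
      rw [hg, hδρ]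
  intro z
  have h5 : δ (γ z) = γ z := by
    have h6 := hg (eqv.symm (γ z))
    rw [hg1, eqv.apply_symm_apply] at h6
    rw [← h6]
    exact eqv.apply_symm_apply (γ z)
  have h6 := hδ' (γ z)
  rw [h5, hinv] at h6
  exact h6.symm

end part

end Pool.Agent.H889.FD
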