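import Pool.Agent.H889.FD.Inst
import Pool.Agent.H889.SY.GeoA

/-! Sections over open subgroups. -/

set_option autoImplicit false
set_option linter.all false

open Polynomial FF

namespace Pool.Agent.H889.FD

open Pool.Agent.Y157.PS Pool.Agent.Y948.PS Pool.Agent.H889.PS Pool.Agent.H889.LM
open Pool.Agent.R925.Q (SecR Lift PSec resk exists_gal)
open Pool.Agent.H889.SY (RamV RV OV)

section down

variable {k κ : Type} [Field k] [Field κ] [Algebra k κ] {Λ : Subgroup (κ ≃ₐ[k] κ)}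
  {k₁ : IntermediateField k κ}

theorem resk_apply (σ : κ ≃ₐ[k₁] κ) (c : κ) : resk k₁ σ c = σ c := rfl

theorem resk_mem (σ : κ ≃ₐ[k₁] κ) : resk k₁ σ ∈ k₁.fixingSubgroup := by
  rw [IntermediateField.mem_fixingSubgroup_iff]
  intro z hz
  exact σ.commutes ⟨z, hz⟩

theorem resk_inj : Function.Injective (resk k₁ : (κ ≃ₐ[k₁] κ) →* (κ ≃ₐ[k] κ)) := by
  intro σ τ h
  ext c
  exact congrArg (fun g : κ ≃ₐ[k] κ => g c) h

theorem resk_lift {σ : κ ≃ₐ[k] κ} (h : σ ∈ k₁.fixingSubgroup) :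
    ∃ τ : κ ≃ₐ[k₁] κ, resk k₁ τ = σ := by
  rw [IntermediateField.mem_fixingSubgroup_iff] at h
  exact ⟨AlgEquiv.ofRingEquiv (f := (σ : κ ≃+* κ)) fun z => h _ z.2, by ext c; rfl⟩

theorem resk_range : (resk k₁ : (κ ≃ₐ[k₁] κ) →* (κ ≃ₐ[k] κ)).range = k₁.fixingSubgroup := by
  ext σ
  constructor
  · rintro ⟨τ, rfl⟩
    exact resk_mem τ
  · intro h
    obtain ⟨τ, hτ⟩ := resk_lift h
    exact ⟨τ, hτ⟩

theorem bg_map (hk₁ : k₁.fixingSubgroup.index ≠ 0) {H : Subgroup (κ ≃ₐ[k₁] κ)}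
    (h : Bg (Λ.comap (resk k₁)) H) : Bg Λ (H.map (resk k₁)) := by
  obtain ⟨U, hU, hle⟩ := h
  refine ⟨U.map (resk k₁), ?_, ?_⟩
  · rw [Subgroup.index_map, (MonoidHom.ker_eq_bot_iff _).2 resk_inj, sup_bot_eq, resk_range]
    exact mul_ne_zero hU hk₁
  · rintro _ ⟨⟨τ, hτ, rfl⟩, hΛ⟩
    exact ⟨τ, hle ⟨hτ, hΛ⟩, rfl⟩

theorem bg_comap {H : Subgroup (κ ≃ₐ[k] κ)} (h : Bg Λ H) :
    Bg (Λ.comap (resk k₁)) (H.comap (resk k₁)) := by
  obtain ⟨U, hU, hle⟩ := h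
  refine ⟨U.comap (resk k₁), ?_, ?_⟩
  · rw [Subgroup.index_comap]
    exact fun h0 => hU (Subgroup.index_eq_zero_of_relIndex_eq_zero h0)
  · rintro τ ⟨h1, h2⟩
    exact hle ⟨h1, h2⟩

theorem rrl_down {ℓ : ℕ} [Fact ℓ.Prime] {B : Finset κ} (hk₁ : k₁.fixingSubgroup.index ≠ 0)
    (h : RRL ℓ k κ B Λ) : RRL ℓ k₁ κ B (Λ.comap (resk k₁)) := by
  refine ⟨fun H hH => ?_, ?_⟩
  · obtain ⟨b, hb⟩ := h.1 _ (bg_map hk₁ hH)
    refine ⟨b, fun m ζ hζ hfix => hb m ζ hζ ?_⟩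
    rintro _ ⟨τ, hτ, rfl⟩
    exact hfix τ hτ
  · intro R M _ _ _ _ _ _ x ε ι N₀ hC U hU
    obtain ⟨_, ⟨φ₀, hφ, rfl⟩, h1⟩ := h.2 R M x ε ι N₀ hC _ (bg_map hk₁ hU)
    exact ⟨φ₀, hφ, fun φ hL => h1 φ ⟨hL.con, hL.fix⟩⟩

/-- finite extensions of `k₁` fixed by an open subgroup -/
theorem open_fix [CharZero k] [Algebra.IsAlgebraic k κ] {U : Subgroup (κ ≃ₐ[k] κ)}
    (hU : IsOpen (U : Set (κ ≃ₐ[k] κ))) :
    ∃ E : IntermediateField k₁ κ, FiniteDimensional k₁ E ∧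
      ∀ σ ∈ E.fixingSubgroup, resk k₁ σ ∈ U := by
  obtain ⟨L, hL, hLU⟩ := (krullTopology_mem_nhds_one_iff k κ _).1 (hU.mem_nhds U.one_mem)
  haveI := hL
  obtain ⟨α, hα⟩ := Field.exists_primitive_element k L
  have hint : IsIntegral k₁ (α : κ) := by
    have h1 : IsAlgebraic k (α : κ) := Algebra.IsAlgebraic.isAlgebraic _
    exact (h1.tower_top k₁).isIntegral
  refine ⟨IntermediateField.adjoin k₁ {(α : κ)}, IntermediateField.adjoin.finiteDimensional hint,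
    fun σ hσ => hLU ?_⟩
  have h2 : σ (α : κ) = α := (IntermediateField.mem_fixingSubgroup_iff _ _).1 hσ _
    (IntermediateField.mem_adjoin_simple_self k₁ _)
  change resk k₁ σ ∈ L.fixingSubgroup
  rw [IntermediateField.mem_fixingSubgroup_iff]
  intro z hz
  have h3 : (⟨z, hz⟩ : L) ∈ IntermediateField.adjoin k {α} := by rw [hα]; trivial
  have h4 : ∀ w : L, w ∈ IntermediateField.adjoin k {α} → resk k₁ σ (w : κ) = (w : κ) := by
    intro w hw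
    induction hw using IntermediateField.adjoin_induction with
    | mem y hy =>
      rw [Set.mem_singleton_iff] at hy
      rw [hy]
      exact h2
    | algebraMap c =>
      change resk k₁ σ (algebraMap k κ c) = algebraMap k κ c
      exact (resk k₁ σ).commutes c
    | add a b _ _ ha hb =>
      change resk k₁ σ ((a : κ) + (b : κ)) = _
      rw [map_add, ha, hb]
      rfl
    | inv a _ ha =>
      change resk k₁ σ ((a : κ)⁻¹) = _
      rw [map_inv₀, ha]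
      rfl
    | mul a b _ _ ha hb =>
      change resk k₁ σ ((a : κ) * (b : κ)) = _
      rw [map_mul, ha, hb]
      rfl
  exact h4 _ h3

end down

section part

variable {k κ R Ω N : Type} [Field k] [CharZero k]
    [Field κ] [Algebra k κ] [IsAlgClosure k κ] [IsAlgClosed κ] [CharZero κ]
    [Field R] [Field Ω] [Field N] [Algebra κ R] [Algebra R Ω] [Algebra κ Ω]
    [IsScalarTower κ R Ω] [IsAlgClosure R Ω]
    {B : Finset κ} {ℓ : ℕ} [Fact ℓ.Prime] {P : ValuationSubring Ω → Prop}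
    {N0 : IntermediateField R Ω}

/-- **partial sections** -/
theorem part {x' : R} (h : Hyp ℓ κ x' B P N0) (eqv : MFU ℓ κ P N0 ≃+* N)
    (cst : κ → N) (hcst : ∀ c, cst c = eqv (algebraMap κ _ c)) (xN : N)
    (hx : eqv (algebraMap R (MFU ℓ κ P N0) x') = xN)
    (H : Subgroup (κ ≃ₐ[k] κ)) (hHo : IsOpen (H : Set (κ ≃ₐ[k] κ)))
    (s : H →* RingAut N) (hps : PSec cst xN H s)
    (hcont : ∀ z, ∃ U : Subgroup (κ ≃ₐ[k] κ), IsOpen (U : Set (κ ≃ₐ[k] κ)) ∧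
      ∀ σ : H, (σ : κ ≃ₐ[k] κ) ∈ U → s σ z = z)
    (Λ : Subgroup (κ ≃ₐ[k] κ)) (hΛn : Λ.Normal) (hRR : RRL ℓ k κ B Λ) :
    (∀ U : Subgroup (κ ≃ₐ[k] κ), U.index ≠ 0 → ∀ γ : RingAut N, (∀ c, γ (cst c) = cst c) →
      γ xN = xN → (∀ σ : H, (σ : κ ≃ₐ[k] κ) ∈ U → (σ : κ ≃ₐ[k] κ) ∈ Λ →
        ∀ z, γ (s σ z) = s σ (γ z)) → γ ≠ 1 →
      ∃ W : ValuationSubring N, RV eqv W ∧ OV eqv W ∧ (∀ σ z, s σ z ∈ W ↔ z ∈ W) ∧
        ∀ z, γ z ∈ W ↔ z ∈ W) ∧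
    (∀ U : Subgroup (κ ≃ₐ[k] κ), U.index ≠ 0 → ∀ W : ValuationSubring N, RV eqv W →
      (∀ σ : H, (σ : κ ≃ₐ[k] κ) ∈ U → (σ : κ ≃ₐ[k] κ) ∈ Λ → ∀ z, s σ z ∈ W ↔ z ∈ W) →
      (∀ σ z, s σ z ∈ W ↔ z ∈ W) ∧
      ∀ U' : Subgroup (κ ≃ₐ[k] κ), U'.index ≠ 0 → ∀ W' : ValuationSubring N, RV eqv W' →
        (∀ σ : H, (σ : κ ≃ₐ[k] κ) ∈ U' → (σ : κ ≃ₐ[k] κ) ∈ Λ → ∀ z, s σ z ∈ W' ↔ z ∈ W') →
        W' = W) ∧
    (∀ W : ValuationSubring N, RV eqv W → OV eqv W → (∀ σ z, s σ z ∈ W ↔ z ∈ W) →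
      (∃ γ : RingAut N, (∀ c, γ (cst c) = cst c) ∧ γ xN = xN ∧ γ ≠ 1 ∧
        ∀ z, γ z ∈ W ↔ z ∈ W) ∧
      ∀ γ : RingAut N, (∀ c, γ (cst c) = cst c) → γ xN = xN → (∀ z, γ z ∈ W ↔ z ∈ W) →
        ∃ U : Subgroup (κ ≃ₐ[k] κ), U.index ≠ 0 ∧ ∀ σ : H, (σ : κ ≃ₐ[k] κ) ∈ U →
          (σ : κ ≃ₐ[k] κ) ∈ Λ → ∀ z, γ (s σ z) = s σ (γ z)) := by
  classical
  haveI : CharZero R := charZero_of_injective_algebraMap (algebraMap κ R).injective
  haveI : IsAlgClosed Ω := IsAlgClosure.isAlgClosed R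
  haveI : Algebra.IsAlgebraic k κ := IsAlgClosure.isAlgebraic
  haveI : Normal k κ := IsAlgClosure.normal k κ
  haveI : Algebra.IsSeparable k κ := inferInstance
  haveI hgal : IsGalois k κ := ⟨⟩
  haveI := hΛn
  have hHi : H.index ≠ 0 := by
    haveI := Subgroup.quotient_finite_of_isOpen H hHo
    exact (Subgroup.finiteIndex_of_finite_quotient (H := H)).index_ne_zero
  -- the fixed field
  obtain ⟨k₁, hk₁⟩ : ∃ k₁ : IntermediateField k κ, k₁.fixingSubgroup = H := by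
    refine ⟨IntermediateField.fixedField H, ?_⟩
    have hcl : IsClosed (H : Set (κ ≃ₐ[k] κ)) := Subgroup.isClosed_of_isOpen H hHo
    exact InfiniteGalois.fixingSubgroup_fixedField ⟨H, hcl⟩
  have hk₁i : k₁.fixingSubgroup.index ≠ 0 := by rw [hk₁]; exact hHi
  haveI : Algebra.IsAlgebraic k₁ κ := Algebra.IsAlgebraic.tower_top (K := k) k₁
  haveI : IsAlgClosure k₁ κ := ⟨inferInstance, inferInstance⟩
  haveI : CharZero k₁ := charZero_of_injective_algebraMap (algebraMap k k₁).injective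
  have hmemH : ∀ τ : κ ≃ₐ[k₁] κ, resk k₁ τ ∈ H := fun τ => by rw [← hk₁]; exact resk_mem τ
  have hlift : ∀ σ : H, ∃ τ : κ ≃ₐ[k₁] κ, (⟨resk k₁ τ, hmemH τ⟩ : H) = σ := by
    intro σ
    obtain ⟨τ, hτ⟩ := resk_lift (k₁ := k₁) (σ := (σ : κ ≃ₐ[k] κ)) (by rw [hk₁]; exact σ.2)
    exact ⟨τ, Subtype.ext hτ⟩
  obtain ⟨Λ₁, hΛ₁⟩ : ∃ Λ₁, Λ₁ = Λ.comap (resk k₁) := ⟨_, rfl⟩
  haveI hΛ₁n : Λ₁.Normal := by rw [hΛ₁]; exact Subgroup.Normal.comap hΛn _
  have hRR₁ : RRL ℓ k₁ κ B Λ₁ := by rw [hΛ₁]; exact rrl_down hk₁i hRR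
  have hRig := rigU_of hRR₁ h
  have hMu := hRR₁.1
  let M := MFU ℓ κ P N0
  let s' : (κ ≃ₐ[k₁] κ) →* RingAut M :=
    { toFun := fun τ => (eqv.trans (s ⟨resk k₁ τ, hmemH τ⟩)).trans eqv.symm
      map_one' := by
        ext z
        have h1 : (⟨resk k₁ 1, hmemH 1⟩ : H) = 1 := Subtype.ext (map_one (resk k₁))
        change ((eqv.symm (s ⟨resk k₁ 1, hmemH 1⟩ (eqv z)) : M) : Ω) = (z : Ω)
        rw [h1, map_one]
        congr 1
        exact eqv.symm_apply_apply z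
      map_mul' := fun σ τ => by
        ext z
        have h1 : (⟨resk k₁ (σ * τ), hmemH (σ * τ)⟩ : H) =
          ⟨resk k₁ σ, hmemH σ⟩ * ⟨resk k₁ τ, hmemH τ⟩ := Subtype.ext (map_mul (resk k₁) σ τ)
        change ((eqv.symm (s ⟨resk k₁ (σ * τ), hmemH (σ * τ)⟩ (eqv z)) : M) : Ω) =
          ((eqv.symm (s ⟨resk k₁ σ, hmemH σ⟩ (eqv (eqv.symm (s ⟨resk k₁ τ, hmemH τ⟩ (eqv z)))))
            : M) : Ω)
        rw [h1, map_mul, eqv.apply_symm_apply]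
        rfl }
  have hs' : ∀ τ z, eqv (s' τ z) = s ⟨resk k₁ τ, hmemH τ⟩ (eqv z) := fun τ z =>
    eqv.apply_symm_apply _
  have hs'2 : ∀ τ z, eqv.symm (s ⟨resk k₁ τ, hmemH τ⟩ z) = s' τ (eqv.symm z) := by
    intro τ z
    apply eqv.injective
    rw [hs', eqv.apply_symm_apply, eqv.apply_symm_apply]
  have hSec : GSec k₁ κ R M x' s' := by
    refine ⟨fun τ c => ?_, fun τ => ?_, fun z => ?_⟩
    · apply eqv.injective
      rw [hs', ← hcst, hps.const, hcst]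
      rfl
    · apply eqv.injective
      rw [hs', hx, hps.fixx]
    · obtain ⟨U, hU, hUz⟩ := hcont (eqv z)
      obtain ⟨E, hE, hE'⟩ := open_fix (k₁ := k₁) hU
      refine ⟨E, hE, fun τ hτ => eqv.injective ?_⟩
      rw [hs']
      exact hUz _ (hE' τ hτ)
  have hgal' : ∀ γ : RingAut N, (∀ c, γ (cst c) = cst c) → γ xN = xN →
      ∃ g : M ≃ₐ[R] M, (∀ z, eqv (g z) = γ (eqv z)) := by
    intro γ h1 h2
    letI : Algebra R N := (((eqv : M →+* N).comp (algebraMap R M))).toAlgebra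
    exact exists_gal (F := R) h.rat eqv (x := x') rfl γ (fun c => by rw [← hcst]; exact h1 c)
      (by change γ (eqv (algebraMap R M x')) = eqv (algebraMap R M x'); rw [hx, h2])
  have hdu : ∀ W : ValuationSubring M,
      (W.comap (eqv.symm : N →+* M)).comap (eqv : M →+* N) = W := by
    intro W
    ext z
    change eqv.symm (eqv z) ∈ W ↔ z ∈ W
    rw [eqv.symm_apply_apply]
  have hud : ∀ W : ValuationSubring N,
      (W.comap (eqv : M →+* N)).comap (eqv.symm : N →+* M) = W := by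
    intro W
    ext z
    change eqv (eqv.symm z) ∈ W ↔ z ∈ W
    rw [eqv.apply_symm_apply]
  -- translation of the stabilisers
  have hBg : ∀ U : Subgroup (κ ≃ₐ[k] κ), U.index ≠ 0 → Bg Λ₁ ((U ⊓ Λ).comap (resk k₁)) := by
    intro U hU
    rw [hΛ₁]
    exact bg_comap ⟨U, hU, le_rfl⟩
  have hst : ∀ (W : ValuationSubring N) (τ : κ ≃ₐ[k₁] κ),
      (∀ z, s' τ z ∈ W.comap (eqv : M →+* N) ↔ z ∈ W.comap (eqv : M →+* N)) ↔
        ∀ z, s ⟨resk k₁ τ, hmemH τ⟩ z ∈ W ↔ z ∈ W := by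
    intro W τ
    constructor
    · intro h1 z
      have h2 := h1 (eqv.symm z)
      change eqv (s' τ (eqv.symm z)) ∈ W ↔ eqv (eqv.symm z) ∈ W at h2
      rwa [hs', eqv.apply_symm_apply] at h2
    · intro h1 z
      change eqv (s' τ z) ∈ W ↔ eqv z ∈ W
      rw [hs']
      exact h1 _
  have hall : ∀ W : ValuationSubring N, (∀ τ z, s' τ z ∈ W.comap (eqv : M →+* N) ↔
      z ∈ W.comap (eqv : M →+* N)) → ∀ σ z, s σ z ∈ W ↔ z ∈ W := by
    intro W hW σ z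
    obtain ⟨τ, rfl⟩ := hlift σ
    exact (hst W τ).1 (hW τ) z
  refine ⟨?_, ?_, ?_⟩
  · intro U hU γ hγc hγx hγ hγ1
    obtain ⟨g, hg⟩ := hgal' γ hγc hγx
    have hgC : g ∈ Cen R s' Λ₁ := by
      refine ⟨(U ⊓ Λ).comap (resk k₁), hBg U hU, fun τ hτ z => ?_⟩
      apply eqv.injective
      rw [hg, hs', hs', hg]
      exact hγ ⟨resk k₁ τ, hmemH τ⟩ hτ.1 hτ.2 _
    have hg1 : g ≠ 1 := by
      rintro rfl
      apply hγ1
      ext z
      have h3 := hg (eqv.symm z)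
      rw [eqv.apply_symm_apply] at h3
      rw [← h3]
      exact eqv.apply_symm_apply z
    obtain ⟨W, hWr, hWP, hWs, hWc, -, -⟩ := symU h hRig hMu hSec (fun hb =>
      hg1 ((Subgroup.eq_bot_iff_forall _).1 hb g hgC))
    refine ⟨W.comap (eqv.symm : N →+* M), RV.up hWr, ?_, ?_, ?_⟩
    · intro W0 hW0
      rw [hdu] at hW0
      exact hWP W0 hW0
    · refine hall _ ?_
      rw [hdu]
      exact hWs
    · intro z
      change eqv.symm (γ z) ∈ W ↔ eqv.symm z ∈ W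
      have h1 : eqv.symm (γ z) = g (eqv.symm z) := by
        apply eqv.injective
        rw [hg, eqv.apply_symm_apply, eqv.apply_symm_apply]
      rw [h1]
      exact hWc g hgC _
  · intro U hU W hW hsW
    obtain ⟨u1, u2⟩ := uniqU h hRig hSec _ (hBg U hU) hW.down
      (fun τ hτ => (hst W τ).2 (hsW _ hτ.1 hτ.2))
    refine ⟨hall W u1, fun U' hU' W' hW' hsW' => ?_⟩
    have h1 := u2 _ (hBg U' hU') _ hW'.down (fun τ hτ => (hst W' τ).2 (hsW' _ hτ.1 hτ.2))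
    rw [← hud W', h1, hud]
  · intro W hW hWP hsW
    have hsW' : ∀ τ ∈ (⊤ : Subgroup (κ ≃ₐ[k₁] κ)), ∀ z, s' τ z ∈ W.comap (eqv : M →+* N) ↔
        z ∈ W.comap (eqv : M →+* N) := fun τ _ => (hst W τ).2 (hsW _)
    refine ⟨?_, ?_⟩
    · obtain ⟨g, -, hg1, hgW⟩ := cuspU (Λ := Λ₁) h hSec ⊤ Bg.top hW.down hWP hsW'
      let γ : RingAut N := (eqv.symm.trans (g : M ≃+* M)).trans eqv
      have hγ : ∀ z, γ z = eqv (g (eqv.symm z)) := fun z => rfl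
      refine ⟨γ, fun c => ?_, ?_, ?_, fun z => ?_⟩
      · rw [hγ, hcst, eqv.symm_apply_apply, IsScalarTower.algebraMap_apply κ R M, g.commutes]
      · rw [hγ, ← hx, eqv.symm_apply_apply, g.commutes]
      · intro he
        apply hg1
        ext z
        change ((g z : M) : Ω) = (z : Ω)
        congr 1
        have h2 : γ (eqv z) = eqv z := by rw [he]; rfl
        rw [hγ, eqv.symm_apply_apply] at h2
        exact eqv.injective h2
      · rw [hγ]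
        have h2 := hgW (eqv.symm z)
        change eqv (g (eqv.symm z)) ∈ W ↔ eqv (eqv.symm z) ∈ W at h2
        rwa [eqv.apply_symm_apply] at h2
    · intro γ hγc hγx hγW
      obtain ⟨g, hg⟩ := hgal' γ hγc hγx
      obtain ⟨U₁, hU₁, hgc⟩ : g ∈ Cen R s' Λ₁ := by
        refine cenU h hSec ⊤ Bg.top hW.down.con hW.down.ne_top hWP hsW' fun z => ?_
        change eqv (g z) ∈ W ↔ eqv z ∈ W
        rw [hg]
        exact hγW _
      rw [hΛ₁] at hU₁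
      obtain ⟨U, hU, hle⟩ := bg_map hk₁i hU₁
      refine ⟨U, hU, fun σ hσ hσΛ z => ?_⟩
      obtain ⟨τ, rfl⟩ := hlift σ
      obtain ⟨τ', hτ', he⟩ := hle ⟨hσ, hσΛ⟩
      have h5 : τ' = τ := resk_inj he
      rw [h5] at hτ'
      have h6 := congrArg eqv (hgc τ hτ' (eqv.symm z))
      rw [hg, hs', hs', hg, eqv.apply_symm_apply] at h6
      exact h6

end part

end Pool.Agent.H889.FD
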